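import Pool.Agent.helper82.CH.SpecA

/-!
# Project CH (MP_2e0e07_nt), row NCH: `ψ(N a)` is a Hecke character mod `m`
-/

set_option autoImplicit false

open NumberField Complex Pool.Agent.UN

namespace Pool.Agent.CH

section

variable {F : Type} [Field F] [NumberField F]

/-- an element which is positive at the real places has positive norm -/
lemma NCH_norm_pos (w : F) (hw : w ≠ 0) (h : ∀ φ : F →+* ℝ, 0 < φ w) : 0 < Algebra.norm ℚ w := by
  classical
  let cj : (F →ₐ[ℚ] ℂ) → (F →ₐ[ℚ] ℂ) := fun σ => ((Complex.conjAe.restrictScalars ℚ : ℂ ≃ₐ[ℚ] ℂ) : ℂ →ₐ[ℚ] ℂ).comp σ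
  have cja : ∀ (σ : F →ₐ[ℚ] ℂ) (x : F), cj σ x = (starRingEnd ℂ) (σ x) := fun σ x => rfl
  have hne : ∀ σ : F →ₐ[ℚ] ℂ, σ w ≠ 0 := fun σ => (map_ne_zero σ).2 hw
  have hprod : ∏ σ : F →ₐ[ℚ] ℂ, (σ w / (‖σ w‖ : ℂ)) = 1 := by
    refine Finset.prod_involution (fun σ _ => cj σ) ?_ ?_ ?_ ?_
    · intro σ _
      rw [cja, RCLike.norm_conj, div_mul_div_comm, Complex.mul_conj, Complex.normSq_eq_norm_sq, ← Complex.ofReal_mul, ← pow_two]
      refine div_self ?_
      have := norm_ne_zero_iff.2 (hne σ)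
      exact_mod_cast pow_ne_zero 2 this
    · intro σ _ hσ e
      apply hσ
      have hr : ComplexEmbedding.IsReal (σ : F →+* ℂ) := by
        rw [ComplexEmbedding.isReal_iff]
        ext x
        rw [ComplexEmbedding.conjugate_coe_eq]
        have := DFunLike.congr_fun e x
        rw [cja] at this
        exact this
      have h1 : ((hr.embedding w : ℝ) : ℂ) = σ w := hr.coe_embedding_apply w
      have h2 := h hr.embedding
      rw [← h1, Complex.norm_real, Real.norm_of_nonneg h2.le]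
      refine div_self ?_
      exact_mod_cast h2.ne'
    · intro σ _
      exact Finset.mem_univ _
    · intro σ _
      ext x
      show cj (cj σ) x = σ x
      rw [cja, cja]
      exact Complex.conj_conj _
  have hn := Algebra.norm_eq_prod_embeddings ℚ ℂ w
  have h3 : (∏ σ : F →ₐ[ℚ] ℂ, σ w) = ((∏ σ : F →ₐ[ℚ] ℂ, ‖σ w‖ : ℝ) : ℂ) := by
    rw [Finset.prod_div_distrib] at hprod
    have h4 : (∏ σ : F →ₐ[ℚ] ℂ, (‖σ w‖ : ℂ)) ≠ 0 := Finset.prod_ne_zero_iff.2 fun σ _ => by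
      exact_mod_cast norm_ne_zero_iff.2 (hne σ)
    rw [div_eq_one_iff_eq h4] at hprod
    rw [hprod, Complex.ofReal_prod]
  rw [h3] at hn
  have h5 : 0 < ∏ σ : F →ₐ[ℚ] ℂ, ‖σ w‖ := Finset.prod_pos fun σ _ => norm_pos_iff.2 (hne σ)
  have h6 : ((Algebra.norm ℚ w : ℚ) : ℝ) = ∏ σ : F →ₐ[ℚ] ℂ, ‖σ w‖ := by
    apply Complex.ofReal_injective
    rw [← hn]
    simp
  rw [← h6] at h5
  exact_mod_cast h5

/-- norms of congruent elements are congruent -/
lemma NCH_norm_cong (m : ℕ) (x y : 𝓞 F) (h : x - y ∈ Ideal.span {((m : ℕ) : 𝓞 F)}) :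
    ((Algebra.norm ℤ x : ℤ) : ZMod m) = ((Algebra.norm ℤ y : ℤ) : ZMod m) := by
  classical
  obtain ⟨t, ht⟩ := Ideal.mem_span_singleton'.1 h
  have hx : x = y + t * ((m : ℕ) : 𝓞 F) := by rw [ht]; ring
  let b := RingOfIntegers.basis F
  rw [Algebra.norm_eq_matrix_det b, Algebra.norm_eq_matrix_det b]
  have e := RingHom.map_det (Int.castRingHom (ZMod m)) (Algebra.leftMulMatrix b x)
  have e' := RingHom.map_det (Int.castRingHom (ZMod m)) (Algebra.leftMulMatrix b y)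
  simp only [eq_intCast] at e e'
  rw [e, e']
  congr 1
  have h1 : Algebra.leftMulMatrix b x = Algebra.leftMulMatrix b y + Algebra.leftMulMatrix b t * ((m : ℕ) : Matrix _ _ ℤ) := by
    rw [hx, map_add, map_mul, map_natCast]
  rw [h1, map_add, map_mul, map_natCast]
  have h2 : ((m : ℕ) : Matrix (Module.Free.ChooseBasisIndex ℤ (𝓞 F)) (Module.Free.ChooseBasisIndex ℤ (𝓞 F)) (ZMod m)) = 0 := by
    rw [← Matrix.diagonal_natCast, ZMod.natCast_self]
    simp
  rw [h2, mul_zero, add_zero]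

/-- an ideal prime to `m` has norm prime to `m` -/
lemma NCH_cop (m : ℕ) (a : Ideal (𝓞 F)) (ha : a ≠ ⊥) (h : a ⊔ Ideal.span {((m : ℕ) : 𝓞 F)} = ⊤) : (Ideal.absNorm a).Coprime m := by
  by_contra hc
  obtain ⟨l, hl, h1, h2⟩ := Nat.Prime.not_coprime_iff_dvd.1 hc
  have : Fact l.Prime := ⟨hl⟩
  have : Finite (𝓞 F ⧸ a) := Ideal.finiteQuotientOfFreeOfNeBot a ha
  have h3 : l ∣ Nat.card (𝓞 F ⧸ a) := by
    rw [Ideal.absNorm_apply, Submodule.cardQuot_apply] at h1
    exact h1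
  obtain ⟨z, hz⟩ := exists_prime_addOrderOf_dvd_card' l h3
  obtain ⟨x, rfl⟩ := Ideal.Quotient.mk_surjective z
  have hx : x ∉ a := by
    intro hx
    rw [Ideal.Quotient.eq_zero_iff_mem.2 hx, addOrderOf_zero] at hz
    exact hl.one_lt.ne hz
  have hlx : (l : 𝓞 F) * x ∈ a := by
    have h4 : l • Ideal.Quotient.mk a x = 0 := by rw [← hz]; exact addOrderOf_nsmul_eq_zero _
    rw [← map_nsmul, Ideal.Quotient.eq_zero_iff_mem, nsmul_eq_mul] at h4
    exact h4
  have h5 : (1 : 𝓞 F) ∈ a ⊔ Ideal.span {((m : ℕ) : 𝓞 F)} := by rw [h]; trivial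
  obtain ⟨α, hα, β, hβ, hs⟩ := Submodule.mem_sup.1 h5
  obtain ⟨t, ht⟩ := Ideal.mem_span_singleton'.1 hβ
  obtain ⟨c, hc'⟩ := h2
  apply hx
  have e : x = x * α + (t * (c : 𝓞 F)) * ((l : 𝓞 F) * x) := by
    calc x = x * (α + β) := by rw [hs, mul_one]
      _ = x * α + (t * (c : 𝓞 F)) * ((l : 𝓞 F) * x) := by
        rw [← ht, hc']
        push_cast
        ring
  rw [e]
  exact a.add_mem (a.mul_mem_left _ hα) (a.mul_mem_left _ hlx)

/-- an ideal whose norm is prime to `m` is prime to `m` -/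
lemma NCH_cop' (m : ℕ) (a : Ideal (𝓞 F)) (h : (Ideal.absNorm a).Coprime m) : a ⊔ Ideal.span {((m : ℕ) : 𝓞 F)} = ⊤ := by
  rw [Ideal.eq_top_iff_one]
  have hb := Nat.isCoprime_iff_coprime.2 h
  obtain ⟨u, v, huv⟩ := hb
  have e : (1 : 𝓞 F) = (u : 𝓞 F) * ((Ideal.absNorm a : ℕ) : 𝓞 F) + (v : 𝓞 F) * ((m : ℕ) : 𝓞 F) := by
    have := congrArg (Int.cast : ℤ → 𝓞 F) huv
    push_cast at this
    exact this.symm
  rw [e]
  exact Submodule.add_mem_sup (a.mul_mem_left _ (Ideal.absNorm_mem a)) (Ideal.mul_mem_left _ _ (Ideal.mem_span_singleton_self _))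

end

theorem NCH : NCH_stmt := by
  intro F _ _ m ψ hm
  classical
  have : NeZero m := ⟨hm.ne'⟩
  have hne : ∀ a : Ideal (𝓞 F), a ≠ ⊥ → nch F ψ a = ψ ((Ideal.absNorm a : ℕ) : ZMod m) := fun a ha => by
    unfold nch
    rw [if_neg ha]
  refine ⟨?_, ?_, ?_, ?_, ?_, ?_, ?_⟩
  · rw [Ne, Ideal.span_singleton_eq_bot]
    exact_mod_cast hm.ne'
  · unfold nch
    rw [if_pos rfl]
  · rw [hne ⊤ (by simp)]
    simp
  · intro a b
    by_cases ha : a = ⊥
    · subst ha
      unfold nch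
      simp
    by_cases hb : b = ⊥
    · subst hb
      unfold nch
      simp
    rw [hne a ha, hne b hb, hne (a * b) (mul_ne_zero ha hb), map_mul, Nat.cast_mul, map_mul]
  · intro a ha h
    rw [hne a ha]
    have hc := NCH_cop m a ha h
    have := DirichletCharacter.unit_norm_eq_one ψ (ZMod.unitOfCoprime _ hc)
    rwa [ZMod.coe_unitOfCoprime] at this
  · intro a h
    by_cases ha : a = ⊥
    · subst ha
      unfold nch
      simp
    rw [hne a ha]
    apply MulChar.map_nonunit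
    intro hu
    exact h (NCH_cop' m a ((ZMod.isUnit_iff_coprime _ _).1 hu))
  · intro x y hx hy hxy hφ
    rw [hne _ (by rwa [Ne, Ideal.span_singleton_eq_bot]), hne _ (by rwa [Ne, Ideal.span_singleton_eq_bot]),
      Ideal.absNorm_span_singleton, Ideal.absNorm_span_singleton]
    congr 1
    have h1 := NCH_norm_cong m x y hxy
    have h2 : 0 < Algebra.norm ℤ x * Algebra.norm ℤ y := by
      rw [← map_mul]
      have h3 : 0 < Algebra.norm ℚ ((x * y : 𝓞 F) : F) := by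
        apply NCH_norm_pos
        · have : x * y ≠ 0 := mul_ne_zero hx hy
          exact_mod_cast this
        · intro φ
          have := hφ φ
          rw [← map_mul] at this
          exact_mod_cast this
      rw [← Algebra.coe_norm_int] at h3
      exact_mod_cast h3
    rcases pos_and_pos_or_neg_and_neg_of_mul_pos h2 with ⟨a1, a2⟩ | ⟨a1, a2⟩
    · have e1 : ((Algebra.norm ℤ x).natAbs : ℤ) = Algebra.norm ℤ x := Int.natAbs_of_nonneg a1.le
      have e2 : ((Algebra.norm ℤ y).natAbs : ℤ) = Algebra.norm ℤ y := Int.natAbs_of_nonneg a2.le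
      rw [← e1, ← e2, Int.cast_natCast, Int.cast_natCast] at h1
      exact h1
    · have e1 : ((Algebra.norm ℤ x).natAbs : ℤ) = -Algebra.norm ℤ x := Int.ofNat_natAbs_of_nonpos a1.le
      have e2 : ((Algebra.norm ℤ y).natAbs : ℤ) = -Algebra.norm ℤ y := Int.ofNat_natAbs_of_nonpos a2.le
      have h4 : ((-Algebra.norm ℤ x : ℤ) : ZMod m) = ((-Algebra.norm ℤ y : ℤ) : ZMod m) := by
        push_cast
        rw [h1]
      rw [← e1, ← e2, Int.cast_natCast, Int.cast_natCast] at h4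
      exact h4

end Pool.Agent.CH
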