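import Pool.Agent.helper17.CH.SpecV

/-!
# Project CH, row STE (Linnik's step for Vinogradov's mean value)
-/

set_option autoImplicit false

namespace Pool.Agent.CH

open Finset

private lemma STE_exp {ι : Type*} (s : Finset ι) (m : ι → ℤ) (a : ℤ) (j : ℕ) :
    ∑ i ∈ s, (m i - a) ^ j =
      ∑ l ∈ range (j + 1), (∑ i ∈ s, m i ^ l) * ((-a) ^ (j - l) * (j.choose l : ℤ)) := by
  simp_rw [sub_eq_add_neg, add_pow, sum_mul]
  rw [sum_comm]
  refine sum_congr rfl fun l _ => sum_congr rfl fun i _ => by ring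

private lemma STE_bin (k s K : ℕ) (a : ℤ) (m n : Fin k → ℤ) (x y : Fin s → ℤ)
    (h : ∀ l ∈ Icc 1 K, ∑ i, m i ^ l + ∑ i, x i ^ l = ∑ i, n i ^ l + ∑ i, y i ^ l) (j : ℕ) (hj : j ≤ K) :
    ∑ i, (m i - a) ^ j + ∑ i, (x i - a) ^ j = ∑ i, (n i - a) ^ j + ∑ i, (y i - a) ^ j := by
  rw [STE_exp, STE_exp, STE_exp, STE_exp, ← sum_add_distrib, ← sum_add_distrib]
  refine sum_congr rfl fun l hl => ?_
  rw [← add_mul, ← add_mul]
  congr 1
  rcases Nat.eq_zero_or_pos l with rfl | h0
  · simp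
  · exact h l (mem_Icc.2 ⟨h0, by have := mem_range.1 hl; omega⟩)

private lemma STE_class (hLIN : LIN_stmt) (hJB : JB_stmt) (s k p X a : ℕ) (hp : p.Prime) (hk : k < p)
    (hX : X ≤ p ^ k) :
    Q4 s k (DM k p X) ((Ioc 0 (X : ℤ)).filter fun x => x % (p : ℤ) = (a : ℤ)) ≤
      X ^ k * (k.factorial * p ^ (k * (k - 1) / 2)) * JV s k (X / p + 1) := by
  classical
  set A := (Ioc 0 (X : ℤ)).filter fun x => x % (p : ℤ) = (a : ℤ) with hA
  set B := Fintype.piFinset fun _ : Fin s => A with hB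
  set M := DM k p X with hM
  have hp0 : (0 : ℤ) < p := by exact_mod_cast hp.pos
  have hJJ : JJ s k A ≤ JV s k (X / p + 1) := by
    unfold JV
    rw [← hJB.2.1 s k (Ioc 0 (((X / p + 1 : ℕ)) : ℤ)) ((a : ℤ) - p) p hp0.ne']
    refine hJB.1 s k _ _ fun x hx => ?_
    rw [hA, mem_filter, mem_Ioc] at hx
    obtain ⟨⟨h1, h2⟩, h3⟩ := hx
    rw [mem_image]
    refine ⟨x / p + 1, ?_, ?_⟩
    · rw [mem_Ioc]
      have h4 : 0 ≤ x / p := Int.ediv_nonneg h1.le hp0.le
      have h5 : x / p ≤ (X : ℤ) / p := Int.ediv_le_ediv hp0 h2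
      push_cast
      omega
    · have h4 := Int.emod_add_mul_ediv x p
      rw [h3] at h4
      linear_combination h4
  set T := (M ×ˢ M).filter fun u : (Fin k → ℤ) × (Fin k → ℤ) =>
    ∀ j ∈ Icc 1 k, (p : ℤ) ^ j ∣ ∑ i, (u.1 i - a) ^ j - ∑ i, (u.2 i - a) ^ j with hT
  have hMX : #M ≤ X ^ k := by
    rw [hM]
    unfold DM
    refine (card_filter_le _ _).trans (le_of_eq ?_)
    rw [Fintype.card_piFinset_const]
    simp
  have hTc : #T ≤ (k.factorial * p ^ (k * (k - 1) / 2)) * #M := by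
    refine card_le_mul_card_image_of_maps_to (f := fun u : (Fin k → ℤ) × (Fin k → ℤ) => u.2) ?_ _ ?_
    · intro u hu
      rw [hT, mem_filter, mem_product] at hu
      exact hu.1.2
    · intro n _
      refine le_trans ?_ (hLIN k p (-(a : ℤ)) (fun j => ∑ i, (n i - a) ^ j) hp hk)
      refine card_le_card_of_injOn (fun u => fun i => u.1 i - a) ?_ ?_
      · intro u hu
        rw [mem_coe, mem_filter, hT, mem_filter, mem_product] at hu
        obtain ⟨⟨⟨h1, _⟩, h3⟩, h4⟩ := hu
        rw [hM] at h1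
        unfold DM at h1
        rw [mem_filter, Fintype.mem_piFinset] at h1
        rw [mem_coe, mem_filter, Fintype.mem_piFinset]
        refine ⟨?_, ?_, ?_⟩
        · intro i
          have h5 := mem_Ioc.1 (h1.1 i)
          rw [mem_Ioc]
          have h6 : (X : ℤ) ≤ (p : ℤ) ^ k := by exact_mod_cast hX
          constructor
          · linarith
          · linarith
        · intro i i' hii hd
          apply h1.2 i i' hii
          have : u.1 i - (a : ℤ) - (u.1 i' - a) = u.1 i - u.1 i' := by ring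
          rwa [this] at hd
        · intro j hj
          have h5 := h3 j hj
          rw [h4] at h5
          exact h5
      · intro u hu v hv huv
        rw [mem_coe, mem_filter] at hu hv
        have h1 : u.1 = v.1 := by
          funext i
          have := congrFun huv i
          simp only at this
          linarith
        exact Prod.ext h1 (hu.2.trans hv.2.symm)
  have hS : Q4 s k M A ≤ JJ s k A * #T := by
    unfold Q4
    refine card_le_mul_card_image_of_maps_to
      (f := fun w : ((Fin k → ℤ) × (Fin k → ℤ)) × ((Fin s → ℤ) × (Fin s → ℤ)) => w.1) ?_ _ ?_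
    · intro w hw
      rw [mem_filter, mem_product, mem_product] at hw
      obtain ⟨⟨h1, h2⟩, h3⟩ := hw
      rw [hT, mem_filter]
      refine ⟨mem_product.2 h1, ?_⟩
      intro j hj
      have h4 := STE_bin k s k (a : ℤ) w.1.1 w.1.2 w.2.1 w.2.2 h3 j (mem_Icc.1 hj).2
      have h5 : ∀ y : Fin s → ℤ, y ∈ Fintype.piFinset (fun _ : Fin s => A) →
          (p : ℤ) ^ j ∣ ∑ i, (y i - a) ^ j := by
        intro y hy
        refine dvd_sum fun i _ => pow_dvd_pow_of_dvd ?_ j
        have h6 := (Fintype.mem_piFinset.1 hy) i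
        rw [hA, mem_filter] at h6
        have h7 := Int.emod_add_mul_ediv (y i) p
        rw [h6.2] at h7
        exact ⟨y i / p, by linear_combination -h7⟩
      have h2' := mem_product.1 h2
      have h8 : ∑ i, (w.1.1 i - (a : ℤ)) ^ j - ∑ i, (w.1.2 i - a) ^ j =
          ∑ i, (w.2.2 i - a) ^ j - ∑ i, (w.2.1 i - a) ^ j := by linear_combination h4
      rw [h8]
      exact dvd_sub (h5 _ h2'.2) (h5 _ h2'.1)
    · intro b _
      refine le_trans ?_ (hJB.2.2.1 s k A (fun j => ∑ i, b.2 i ^ j - ∑ i, b.1 i ^ j))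
      refine card_le_card_of_injOn (fun w => w.2) ?_ ?_
      · intro w hw
        rw [mem_coe, mem_filter, mem_filter, mem_product] at hw
        obtain ⟨⟨⟨_, h2⟩, h3⟩, h4⟩ := hw
        rw [mem_coe, mem_filter]
        refine ⟨h2, fun j hj => ?_⟩
        have h5 := h3 j hj
        rw [h4] at h5
        linear_combination h5
      · intro u hu v hv huv
        rw [mem_coe, mem_filter] at hu hv
        exact Prod.ext (hu.2.trans hv.2.symm) huv
  calc Q4 s k M A ≤ JJ s k A * #T := hS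
    _ ≤ JV s k (X / p + 1) * ((k.factorial * p ^ (k * (k - 1) / 2)) * X ^ k) :=
        Nat.mul_le_mul hJJ (hTc.trans (Nat.mul_le_mul le_rfl hMX))
    _ = _ := by ring

/-- **STE**. -/
theorem STE (hHOL : HOL_stmt) (hLIN : LIN_stmt) (hJB : JB_stmt) : STE_stmt := by
  intro s k p X hs hp hk hX
  refine (hHOL s k p (DM k p X) (Ioc 0 (X : ℤ)) hs hp.one_le).trans ?_
  have h1 : ∑ a ∈ range p, Q4 s k (DM k p X) ((Ioc 0 (X : ℤ)).filter fun x => x % (p : ℤ) = (a : ℤ)) ≤
      ∑ a ∈ range p, X ^ k * (k.factorial * p ^ (k * (k - 1) / 2)) * JV s k (X / p + 1) :=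
    sum_le_sum fun a _ => STE_class hLIN hJB s k p X a hp hk hX
  rw [sum_const, card_range, smul_eq_mul] at h1
  calc p ^ (2 * s - 1) * ∑ a ∈ range p, Q4 s k (DM k p X)
          ((Ioc 0 (X : ℤ)).filter fun x => x % (p : ℤ) = (a : ℤ))
      ≤ p ^ (2 * s - 1) * (p * (X ^ k * (k.factorial * p ^ (k * (k - 1) / 2)) * JV s k (X / p + 1))) :=
        Nat.mul_le_mul le_rfl h1
    _ = p ^ (2 * s) * X ^ k * (k.factorial * p ^ (k * (k - 1) / 2)) * JV s k (X / p + 1) := by
        obtain ⟨t, ht⟩ : ∃ t, 2 * s = t + 1 := ⟨2 * s - 1, by omega⟩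
        rw [ht, Nat.add_sub_cancel, pow_succ]
        ring

end Pool.Agent.CH
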