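import Pool.Agent.helper55.CH.TY1
import Pool.Agent.helper2.CH.PTN
import Pool.Agent.helper25.CH.KPF
import Pool.Agent.helper88.CH.KSM
import Pool.Agent.helper13.CH.ERR
import Pool.Agent.helper79.CH.BKB
import Pool.Agent.helper70.CH.BVL
import Pool.Agent.helper18.CH.VAU
import Pool.Agent.helper98.CH.CCB
import Pool.Agent.helper75.CH.HP
import Pool.Agent.helper88.CH.HPB
import Pool.Agent.helper45.CH.EM
import Pool.Agent.helper49.CH.TI
import Pool.Agent.helper98.CH.HOL
import Pool.Agent.helper79.CH.LINA
import Pool.Agent.helper83.CH.LIN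
import Pool.Agent.helper52.CH.JB
import Pool.Agent.helper17.CH.STE
import Pool.Agent.helper37.CH.REC
import Pool.Agent.helper89.CH.VMV
import Pool.Agent.helper37.CH.DH
import Pool.Agent.helper28.CH.TJ
import Pool.Agent.helper22.CH.LOC
import Pool.Agent.helper16.CH.DYS
import Pool.Agent.helper43.CH.ES
import Pool.Agent.helper94.CH.CHS
import Pool.Agent.helper69.CH.RGH
import Pool.Agent.helper40.CH.RC
import Pool.Agent.helper75.CH.LD
import Pool.Agent.helper15.CH.LB
import Pool.Agent.helper61.CH.LG
import Pool.Agent.helper65.CH.LF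
import Pool.Agent.helper70.CH.FS
import Pool.Agent.helper67.CH.VP
import Pool.Agent.helper43.CH.SUP
import Pool.Agent.helper4.CH.MVT
import Pool.Agent.helper35.CH.TII
import Pool.Agent.helper40.CH.HW
import Pool.Agent.helper91.CH.BD
import Pool.Agent.helper43.CH.LPS
import Pool.Agent.helper98.CH.PS
import Pool.Agent.helper23.CH.WN
import Pool.Agent.helper28.CH.SC
import Pool.Agent.helper92.CH.BVW
import Pool.Agent.helper20.CH.BQL
import Pool.Agent.helper22.CH.QD
import Pool.Agent.helper16.CH.QI
import Pool.Agent.helper37.CH.QHW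
import Pool.Agent.helper28.CH.QPS
import Pool.Agent.helper45.CH.QN
import Pool.Agent.helper20.CH.QSC
import Pool.Agent.helper12.CH.BQW
import Pool.Agent.helper44.CH.MER
import Pool.Agent.helper99.CH.MAB
import Pool.Agent.helper36.CH.TRI
import Pool.Agent.helper23.CH.SP
import Pool.Agent.helper92.CH.PI
import Pool.Agent.helper65.CH.CBP
import Pool.Agent.helper49.CH.CBL
import Pool.Agent.helper21.CH.CB
import Pool.Agent.helper96.CH.COM
import Pool.Agent.helper98.CH.SQB
import Pool.Agent.helper11.CH.WIN
import Pool.Agent.helper17.CH.EXC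
import Pool.Agent.helper2.CH.FID
import Pool.Agent.helper98.CH.DYL
import Pool.Agent.helper27.CHS.All

/-!
# Project CH (MP_5628fe_nt): assembly of the rows
-/

set_option autoImplicit false

namespace Pool.Agent.CH.All

open Pool.Agent.CH

theorem TY1_all : TY1_stmt := TY1
theorem PTN_all : PTN_stmt := PTN
theorem KPF_all : KPF_stmt := KPF
theorem KSM_all : KSM_stmt := KSM KPF_all
theorem ERR_all : ERR_stmt := ERR KSM_all
theorem BKB_all : BKB_stmt := BKB PTN_all ERR_all
theorem BVL_all : BVL_stmt := BVL TY1_all BKB_all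
theorem VAU_all : VAU_stmt := VAU
theorem CCB_all : CCB_stmt := CCB
theorem HP_all : HP_stmt := HP CCB_all
theorem HPB_all : HPB_stmt := HPB HP_all
theorem EM_all : EM_stmt := EM
theorem TI_all : TI_stmt := TI EM_all
theorem HOL_all : HOL_stmt := HOL
theorem LINA_all : LINA_stmt := LINA
theorem LIN_all : LIN_stmt := LIN LINA_all
theorem JB_all : JB_stmt := JB
theorem STE_all : STE_stmt := STE HOL_all LIN_all JB_all
theorem REC_all : REC_stmt := REC STE_all JB_all
theorem VMV_all : VMV_stmt := VMV REC_all JB_all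
theorem DH_all : DH_stmt := DH JB_all
theorem TJ_all : TJ_stmt := TJ
theorem LOC_all : LOC_stmt := LOC VMV_all DH_all TJ_all
theorem DYS_all : DYS_stmt := DYS LOC_all
theorem ES_all : ES_stmt := ES DYS_all EM_all
theorem CHS_all : CHS_stmt := CHS ES_all
theorem RGH_all : RGH_stmt := RGH CHS_all
theorem RC_all : RC_stmt := RC
theorem LD_all : LD_stmt := LD RGH_all RC_all
theorem LB_all : LB_stmt := LB LD_all RC_all
theorem LG_all : LG_stmt := LG LD_all LB_all
theorem LF_all : LF_stmt := LF LG_all
theorem FS_all : FS_stmt := FS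
theorem VP_all : VP_stmt := VP LF_all FS_all
theorem SUP_all : SUP_stmt := SUP VP_all
theorem MVT_all : MVT_stmt := MVT
theorem TII_all : TII_stmt := TII SUP_all MVT_all
theorem HW_all : HW_stmt := HW VAU_all HPB_all TI_all TII_all CCB_all
theorem BD_all : BD_stmt := BD CCB_all
theorem LPS_all : LPS_stmt := LPS
theorem PS_all : PS_stmt := PS
theorem WN_all : WN_stmt := WN HW_all BD_all LPS_all PS_all
theorem SC_all : SC_stmt := SC WN_all
theorem BVW_all : BVW_stmt := BVW BVL_all SC_all
theorem BQL_all : BQL_stmt := BQL BKB_all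
theorem QD_all : QD_stmt := QD
theorem QI_all : QI_stmt := QI SUP_all MVT_all
theorem QHW_all : QHW_stmt := QHW QD_all QI_all HPB_all CCB_all
theorem QPS_all : QPS_stmt := QPS PS_all
theorem QN_all : QN_stmt := QN QHW_all BD_all LPS_all QPS_all
theorem QSC_all : QSC_stmt := QSC QN_all
theorem BQW_all : BQW_stmt := BQW BQL_all QSC_all
theorem MER_all : MER_stmt := MER
theorem MAB_all : MAB_stmt := MAB MER_all
theorem TRI_all : TRI_stmt := TRI MER_all MAB_all
theorem SP_all : SP_stmt := SP TRI_all MAB_all MER_all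
theorem PI_all : PI_stmt := PI
theorem CBP_all : CBP_stmt := CBP SP_all PI_all
theorem CBL_all : CBL_stmt := CBL CBP_all CCB_all
theorem CB_all : CB_stmt := CB CBL_all QHW_all HW_all BD_all
theorem COM_all : COM_stmt := COM
theorem SQB_all : SQB_stmt := SQB
theorem WIN_all : WIN_stmt := WIN COM_all SQB_all
theorem EXC_all : EXC_stmt := EXC
theorem SLV_all : SLV_stmt := Pool.Agent.CHS.all_SLV
theorem FID_all : FID_stmt := FID BVW_all BQW_all CB_all SLV_all WIN_all EXC_all
theorem DYL_all : DYL_stmt := DYL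

end Pool.Agent.CH.All
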