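import Pool.Agent.helper74.TG.Defs
import Pool.Agent.helper39.MT.Defs

/-!
# Project CH (MP_5628fe_nt): definitions, part V
-/

set_option autoImplicit false

namespace Pool.Agent.CH

open Finset ArithmeticFunction

/-- `J_{s,k}(A)`: the number of solutions of `∑ x_i^j = ∑ y_i^j`, `1 ≤ j ≤ k`, `x, y ∈ A^s`. -/
noncomputable def JJ (s k : ℕ) (A : Finset ℤ) : ℕ :=
  #(((Fintype.piFinset fun _ : Fin s => A) ×ˢ (Fintype.piFinset fun _ : Fin s => A)).filter fun w =>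
    ∀ j ∈ Icc 1 k, ∑ i, w.1 i ^ j = ∑ i, w.2 i ^ j)

/-- Vinogradov's mean value `J_{s,k}(X)`. -/
noncomputable def JV (s k X : ℕ) : ℕ := JJ s k (Ioc 0 (X : ℤ))

/-- The number of solutions of `∑ m_i^j + ∑ x_i^j = ∑ n_i^j + ∑ y_i^j`, `1 ≤ j ≤ k`, with
`m, n ∈ M` (`k` variables each) and `x, y ∈ A^s`. -/
noncomputable def Q4 (s k : ℕ) (M : Finset (Fin k → ℤ)) (A : Finset ℤ) : ℕ :=
  #(((M ×ˢ M) ×ˢ ((Fintype.piFinset fun _ : Fin s => A) ×ˢ (Fintype.piFinset fun _ : Fin s => A))).filter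
    fun w => ∀ j ∈ Icc 1 k,
      ∑ i, w.1.1 i ^ j + ∑ i, w.2.1 i ^ j = ∑ i, w.1.2 i ^ j + ∑ i, w.2.2 i ^ j)

/-- The `k`-tuples of integers of `(0, X]` distinct modulo `p`. -/
noncomputable def DM (k p X : ℕ) : Finset (Fin k → ℤ) :=
  (Fintype.piFinset fun _ : Fin k => Ioc 0 (X : ℤ)).filter fun m =>
    ∀ i i' : Fin k, i ≠ i' → ¬ (p : ℤ) ∣ m i - m i'

/-- `x ^ (i t)` for real `x > 0`. -/
noncomputable def nit (t x : ℝ) : ℂ := Complex.exp (((t * Real.log x : ℝ) : ℂ) * Complex.I)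

/-- `(log x)^(19/20)`. -/
noncomputable def dl (x : ℝ) : ℝ := Real.log x ^ (19 / 20 : ℝ)

/-- `log log x`. -/
noncomputable def ll2 (x : ℝ) : ℝ := Real.log (Real.log x)

/-- `n ≥ 1` and all prime factors of `n` exceed `y`. -/
def rgh (y : ℝ) (n : ℕ) : Prop := n ≠ 0 ∧ ∀ p : ℕ, p.Prime → p ∣ n → y < p

open Classical in
/-- `∑ χ(n) (log n)^j n^(-s)` over the `y`-rough `n`. -/
noncomputable def RD {q : ℕ} (χ : DirichletCharacter ℂ q) (y : ℝ) (j : ℕ) (s : ℂ) : ℂ :=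
  LSeries (fun n => if rgh y n then χ n * (Real.log n : ℂ) ^ j else 0) s

open Classical in
/-- `∑ Λ(n) χ(n) (log n)^j n^(-s)` over the `y`-rough `n`. -/
noncomputable def RG {q : ℕ} (χ : DirichletCharacter ℂ q) (y : ℝ) (j : ℕ) (s : ℂ) : ℂ :=
  LSeries (fun n => if rgh y n then (vonMangoldt n : ℂ) * χ n * (Real.log n : ℂ) ^ j else 0) s

open Classical in
/-- `∑ μ(n) χ(n) (log n)^j n^(-s)` over the `y`-rough `n`. -/
noncomputable def RM {q : ℕ} (χ : DirichletCharacter ℂ q) (y : ℝ) (j : ℕ) (s : ℂ) : ℂ :=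
  LSeries (fun n => if rgh y n then ((moebius n : ℤ) : ℂ) * χ n * (Real.log n : ℂ) ^ j else 0) s

/-- `∑ μ(n) χ(n) (log n)^j n^(-s)`. -/
noncomputable def MM {q : ℕ} (χ : DirichletCharacter ℂ q) (j : ℕ) (s : ℂ) : ℂ :=
  LSeries (fun n => ((moebius n : ℤ) : ℂ) * χ n * (Real.log n : ℂ) ^ j) s

/-- `s` is in the range of the argument for `x`: `1 + 1/log x ≤ Re s ≤ 2`, `(log x)^B₁ ≤ |Im s| ≤ x^K`. -/
def Rng (B₁ K : ℕ) (x : ℝ) (s : ℂ) : Prop :=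
  1 + 1 / Real.log x ≤ s.re ∧ s.re ≤ 2 ∧ Real.log x ^ B₁ ≤ |s.im| ∧ |s.im| ≤ x ^ K

end Pool.Agent.CH
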