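import Pool.Agent.helper17.CH.SpecV
import Pool.Agent.helper8.GD.Defs
import Pool.Agent.helper85.BVP.Vaughan

/-!
# Project CH (MP_5628fe_nt): definitions, parts W, Q and assembly
-/

set_option autoImplicit false

namespace Pool.Agent.CH

open Finset ArithmeticFunction MeasureTheory
open Pool.Agent.helper85.BVP (trunc beta Mr Zr)

/-- the window `(n^3, (n+1)^3]` -/
def Win (n : ℕ) : Finset ℕ := Ioc (n ^ 3) ((n + 1) ^ 3)

/-- `c n` on the window of `n`, `N ≤ n < 2N`; `0` elsewhere -/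
noncomputable def cc (N : ℕ) (c : ℕ → ℝ) (j : ℕ) : ℝ :=
  ∑ n ∈ Ico N (2 * N), if j ∈ Win n then c n else 0

/-- the same in logarithmic scale -/
noncomputable def CC (N : ℕ) (c : ℕ → ℝ) (v : ℝ) : ℝ :=
  ∑ n ∈ Ico N (2 * N),
    (Set.Ioc (3 * Real.log n) (3 * Real.log ((n : ℝ) + 1))).indicator (fun _ => c n) v

/-- the Gaussian density of standard deviation `δ` -/
noncomputable def ph (δ u : ℝ) : ℝ := Real.exp (-(u ^ 2) / (2 * δ ^ 2)) / (δ * √(2 * Real.pi))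

/-- the smoothed function `CC * ph δ` -/
noncomputable def Ph (N : ℕ) (c : ℕ → ℝ) (δ v : ℝ) : ℝ := ∫ w : ℝ, CC N c w * ph δ (v - w)

/-- the Fourier multiplier of the difference of two smoothings -/
noncomputable def mu2 (δ δ' t : ℝ) : ℝ :=
  Real.exp (-(δ ^ 2 * t ^ 2) / 2) - Real.exp (-(δ' ^ 2 * t ^ 2) / 2)

/-- the width `N^(-1-ε)` -/
noncomputable def de (ε : ℝ) (N : ℕ) : ℝ := (N : ℝ) ^ (-(1 + ε))

/-- the width `(log N)^(-B)` -/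
noncomputable def dB (B N : ℕ) : ℝ := 1 / Real.log N ^ B

/-- the frequencies `(log N)^B₁ ≤ |t| ≤ N^(1+2ε)` -/
def Tset (ε : ℝ) (B₁ N : ℕ) : Set ℝ := {t : ℝ | Real.log N ^ B₁ ≤ |t| ∧ |t| ≤ (N : ℝ) ^ (1 + 2 * ε)}

/-- Dirichlet polynomial of a block `[M, 2M)` -/
noncomputable def DPb (M : ℕ) (a : ℕ → ℂ) (t : ℝ) : ℂ := ∑ m ∈ Ico M (2 * M), a m * nit t m

/-- bilinear sum over the block `[M, 2M) × [K, 2K)` -/
noncomputable def BLb (M K : ℕ) (a b : ℕ → ℂ) (g : ℕ → ℂ) : ℂ :=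
  ∑ m ∈ Ico M (2 * M), ∑ k ∈ Ico K (2 * K), a m * b k * g (m * k)

/-- the function `(Ph δ - Ph δ') (log j)` -/
noncomputable def gW (N : ℕ) (c : ℕ → ℝ) (δ δ' : ℝ) (j : ℕ) : ℂ :=
  ((Ph N c δ (Real.log j) - Ph N c δ' (Real.log j) : ℝ) : ℂ)

/-- the coefficients of the type I sums in Vaughan's identity, `∑_{ab=d, a,b ≤ U} μ(a) Λ(b)` -/
noncomputable def eU (U : ℕ) : ArithmeticFunction ℝ := trunc Mr U * trunc vonMangoldt U

/-- the dyadic exponents `(i, l)` of the blocks near `N^3` -/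
noncomputable def PP (N : ℕ) : Finset (ℕ × ℕ) :=
  ((range (64 * N)) ×ˢ (range (64 * N))).filter fun w =>
    N ^ 3 ≤ 64 * 2 ^ (w.1 + w.2) ∧ 2 ^ (w.1 + w.2) ≤ 64 * N ^ 3

/-- residue classes for the primes `p`: `c m ≡ 1 mod 30`, `m ∣ c m + 6` -/
def ClP (c : ℕ → ℕ) : Prop := ∀ m : ℕ, 0 < m → Nat.Coprime m 30 → c m ≡ 1 [MOD 30] ∧ m ∣ c m + 6

/-- residue classes for the numbers `b = p + 6`: `c m ≡ 7 mod 30`, `c m ≡ 6 mod m` -/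
def ClB (c : ℕ → ℕ) : Prop := ∀ m : ℕ, 0 < m → Nat.Coprime m 30 → c m ≡ 7 [MOD 30] ∧ c m ≡ 6 [MOD m]

/-- the moduli `m ≤ Q` prime to `30` -/
noncomputable def Mo (Q : ℝ) : Finset ℕ := (Icc 1 ⌊Q⌋₊).filter fun m => Nat.Coprime m 30

/-- the products `p₂ p₃ p₄ ≤ X` of primes with `y ≤ p₂ ≤ p₃ ≤ p₄` -/
def K3 (y : ℝ) (k : ℕ) : Prop := ∃ p₂ p₃ p₄ : ℕ, p₂.Prime ∧ p₃.Prime ∧ p₄.Prime ∧ y ≤ p₂ ∧
  p₂ ≤ p₃ ∧ p₃ ≤ p₄ ∧ k = p₂ * p₃ * p₄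

/-- primes of `[z, y)` -/
def P1 (z y : ℝ) (p : ℕ) : Prop := p.Prime ∧ z ≤ p ∧ (p : ℝ) < y

/-- the switched sequence: products of a prime of `[z,y)` and three primes `≥ y` -/
def Bs (z y : ℝ) (b : ℕ) : Prop := ∃ p k : ℕ, P1 z y p ∧ K3 y k ∧ b = p * k

end Pool.Agent.CH
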