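import Pool.Agent.helper17.CH.SpecQ

/-!
# Project CH, row EXC: interchange of summation, Chinese remainder theorem
-/

set_option autoImplicit false

namespace Pool.Agent.CH

open Finset ArithmeticFunction

private lemma EXC_r1 : ∃ r : ℕ → ℕ, ClP r := by
  classical
  refine ⟨fun m => if h : Nat.Coprime 30 m then (Nat.chineseRemainder h 1 (6 * m - 6) : ℕ) else 0, ?_⟩
  intro m hm hc
  have h : Nat.Coprime 30 m := hc.symm
  simp only [dif_pos h]
  have h2 := (Nat.chineseRemainder h 1 (6 * m - 6)).2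
  refine ⟨h2.1, ?_⟩
  have h3 : (Nat.chineseRemainder h 1 (6 * m - 6) : ℕ) + 6 ≡ 6 * m - 6 + 6 [MOD m] := h2.2.add_right 6
  have h4 : 6 * m - 6 + 6 = m * 6 := by omega
  rw [h4] at h3
  exact (Nat.modEq_zero_iff_dvd.1 (h3.trans (Nat.modEq_zero_iff_dvd.2 (dvd_mul_right m 6))))

private lemma EXC_r2 : ∃ r : ℕ → ℕ, ClB r := by
  classical
  refine ⟨fun m => if h : Nat.Coprime 30 m then (Nat.chineseRemainder h 7 6 : ℕ) else 0, ?_⟩
  intro m hm hc
  have h : Nat.Coprime 30 m := hc.symm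
  simp only [dif_pos h]
  exact (Nat.chineseRemainder h 7 6).2

private lemma EXC_c1 (r : ℕ → ℕ) (hr : ClP r) (m j : ℕ) (hm : 0 < m) (hc : Nat.Coprime m 30) :
    (j % 30 = 1 ∧ m ∣ j + 6) ↔ j ≡ r m [MOD 30 * m] := by
  obtain ⟨h1, h2⟩ := hr m hm hc
  rw [← Nat.modEq_and_modEq_iff_modEq_mul hc.symm]
  constructor
  · rintro ⟨h3, h4⟩
    refine ⟨?_, ?_⟩
    · exact (show j ≡ 1 [MOD 30] from h3).trans h1.symm
    · exact Nat.ModEq.add_right_cancel' 6
        ((Nat.modEq_zero_iff_dvd.2 h4).trans (Nat.modEq_zero_iff_dvd.2 h2).symm)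
  · rintro ⟨h3, h4⟩
    refine ⟨h3.trans h1, ?_⟩
    exact Nat.modEq_zero_iff_dvd.1 ((h4.add_right 6).trans (Nat.modEq_zero_iff_dvd.2 h2))

private lemma EXC_c2 (r : ℕ → ℕ) (hr : ClB r) (m b : ℕ) (hm : 0 < m) (hc : Nat.Coprime m 30) (hb : 7 ≤ b) :
    (b % 30 = 7 ∧ m ∣ b - 6) ↔ b ≡ r m [MOD 30 * m] := by
  obtain ⟨h1, h2⟩ := hr m hm hc
  rw [← Nat.modEq_and_modEq_iff_modEq_mul hc.symm]
  constructor
  · rintro ⟨h3, h4⟩
    refine ⟨?_, ?_⟩
    · exact (show b ≡ 7 [MOD 30] from h3).trans h1.symm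
    · exact ((Nat.modEq_iff_dvd' (by omega)).2 h4).symm.trans h2.symm
  · rintro ⟨h3, h4⟩
    refine ⟨h3.trans h1, ?_⟩
    exact (Nat.modEq_iff_dvd' (by omega)).1 (h4.trans h2).symm

private lemma EXC_mem (l : ℕ → ℝ) (Q : ℝ) (hl : ∀ m, l m ≠ 0 → Nat.Coprime m 30 ∧ (m : ℝ) ≤ Q) (a : ℕ)
    (ha : 0 < a) : ∑ m ∈ a.divisors, l m = ∑ m ∈ Mo Q, if m ∣ a then l m else 0 := by
  rw [← sum_filter]
  symm
  apply sum_subset
  · intro m hm
    rw [mem_filter] at hm
    exact Nat.mem_divisors.2 ⟨hm.2, by omega⟩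
  · intro m hm hm'
    by_contra h0
    obtain ⟨h1, h2⟩ := hl m h0
    rw [Nat.mem_divisors] at hm
    apply hm'
    rw [mem_filter, Mo, mem_filter, mem_Icc]
    refine ⟨⟨⟨Nat.pos_of_dvd_of_pos hm.1 ha, Nat.le_floor h2⟩, h1⟩, hm.1⟩

theorem EXC : EXC_stmt := by
  refine ⟨EXC_r1, EXC_r2, ?_, ?_⟩
  · intro l Q r S hr hl
    have h1 : ∀ j ∈ S.filter (fun j => j % 30 = 1), vonMangoldt j * ∑ m ∈ (j + 6).divisors, l m =
        ∑ m ∈ Mo Q, if m ∣ j + 6 then l m * vonMangoldt j else 0 := by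
      intro j _
      rw [EXC_mem l Q hl (j + 6) (by omega), mul_sum]
      refine sum_congr rfl fun m _ => ?_
      split_ifs
      · ring
      · ring
    rw [sum_congr rfl h1, sum_comm]
    refine sum_congr rfl fun m hm => ?_
    rw [Mo, mem_filter, mem_Icc] at hm
    rw [← sum_filter, filter_filter, mul_sum]
    refine sum_congr ?_ fun _ _ => rfl
    ext j
    simp only [mem_filter]
    rw [EXC_c1 r hr m j (by omega) hm.2]
  · intro l Q r S hr hS hl
    have h1 : ∀ b ∈ S.filter (fun b => b % 30 = 7), ∑ m ∈ (b - 6).divisors, l m =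
        ∑ m ∈ Mo Q, if m ∣ b - 6 then l m else 0 := by
      intro b hb
      have := hS b (mem_filter.1 hb).1
      exact EXC_mem l Q hl (b - 6) (by omega)
    rw [sum_congr rfl h1, sum_comm]
    refine sum_congr rfl fun m hm => ?_
    rw [Mo, mem_filter, mem_Icc] at hm
    rw [← sum_filter, filter_filter, sum_const, nsmul_eq_mul, mul_comm]
    have : (S.filter fun b => b % 30 = 7 ∧ m ∣ b - 6) = S.filter fun b => b ≡ r m [MOD 30 * m] := by
      ext b
      simp only [mem_filter]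
      constructor
      · rintro ⟨hb, h⟩
        exact ⟨hb, (EXC_c2 r hr m b (by omega) hm.2 (hS b hb)).1 h⟩
      · rintro ⟨hb, h⟩
        exact ⟨hb, (EXC_c2 r hr m b (by omega) hm.2 (hS b hb)).2 h⟩
    rw [this]

end Pool.Agent.CH
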