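import Pool.Agent.helper17.CH.SpecQ

/-!
# Project CH (MP_5628fe_nt), part B: characters of large conductor in the windows, level `N^(1-ε) = x^(1/3-)`

Page: /team-store/MP_5628fe_CH_page.md.

RULES.  File `Pool/Agent/<seat>/CH/XX.lean`, `import Pool.Agent.helper17.CH.SpecB`, `namespace Pool.Agent.CH`,
`theorem XX (h1 : YY_stmt) ... : XX_stmt` (any other statement of this file may be a hypothesis, no circles),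
auxiliary lemmas prefixed `XX_` and private where possible.  Never change this file.  If a statement is wrong tell
helper17 at once.  Library: `kp` (helper8/GD/Defs.lean), `GD.BV1 : GD.BV1_stmt` (helper20/GD/BV1.lean), `GD.BV2`
(helper46/GD/BV2.lean), Vaughan `Pool.Agent.helper85.SQ.single`, `raw` (helper85/SQ/RAW.lean), `alpha`, `beta`, `tau`,
`sum_tau_sq_le`, `abs_beta_le`, `alpha_le_log` (helper85/BVP), `Pool.Agent.helper9.Tors.divisor_bound`.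
-/

set_option autoImplicit false

namespace Pool.Agent.CH

open Finset ArithmeticFunction
open GD (kp ks)

/-- **KPF** (medium).  If `(j,M) > 1` then `kp = 0`.  Otherwise let `P(d) = ∑ conj(χ a) χ j` over the characters mod `M` of conductor
`d`.  For `r' ∣ M`: `∑_{d ∣ r'} P(d)` = sum over the characters mod `M` which factor through `r'` = sum over all
characters mod `r'` = `φ(r') [j ≡ a mod r']`; Möbius inversion: `P(r') = ∑_{d ∣ r'} μ(r'/d) φ(d) [j ≡ a mod d]`. -/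
def KPF_stmt : Prop := ∀ R M a j : ℕ, 0 < M → Nat.Coprime a M →
  |kp R M a j| ≤ 1 / (Nat.totient M : ℝ) *
    ∑ r' ∈ M.divisors with R < r' ∧ r' ≤ 2 * R, ∑ d ∈ r'.divisors with j ≡ a [MOD d], (Nat.totient d : ℝ)

/-- **KSM** (medium, long).  From KPF with `M = 30m`.  `d ∣ r' ∣ 30m`; write `d = d₁ d₂`, `r' = r₁ r₂` with `d₁ ∣ r₁ ∣ 30`, `d₂ ∣ r₂ ∣ m`;
then `j ≡ r m mod d₂`, so `d₂ ∣ h`.  `φ(30m) = 8φ(m)`, `φ(d₁) ≤ 8`, at most `8` values for each of `d₁`, `r₁`; so the sum is at most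
`64 ∑_{d₂ ∣ h} φ(d₂) ∑_{k ≤ Q} ∑_{s ≤ Q} 1/φ(d₂ k s)` (`r₂ = d₂ k`, `m = r₂ s`) and `φ(d₂ k s) ≥ φ(d₂) φ(k) φ(s)`,
`∑_{k ≤ Q} 1/φ(k) ≤ C (1 + log Q)` (`BV1_sum_inv` in helper20/GD/BV1.lean). -/
def KSM_stmt : Prop := ∃ C : ℝ, 0 < C ∧ ∀ (Q : ℝ) (R j h : ℕ) (r : ℕ → ℕ), 1 ≤ Q → 1 ≤ h →
  (∀ m : ℕ, 0 < m → Nat.Coprime m 30 → Nat.Coprime (r m) (30 * m)) →
  (∀ m : ℕ, 0 < m → Nat.Coprime m 30 → ∀ d : ℕ, d ∣ m → j ≡ r m [MOD d] → d ∣ h) →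
  ∑ m ∈ Mo Q, |kp R (30 * m) (r m) j| ≤ C * (1 + Real.log Q) ^ 2 * #h.divisors

/-- **PTN** (medium).  Cutting the range of the larger variable.  The interval `(M₁, M₂]`, `M₂ ≤ 2M₁`, is cut into at most
`3ρ` consecutive intervals `(u, v]`, `u ≥ M₁`, with `v ≤ u(1 + 1/ρ)` or `v = u + 1`; on each of them `cc N c (ab)` is replaced by
`cc N c (v b)`; `GD.BV1` (with `Q' = 30Q`, class function `m' ↦ r(m'/30)`, only the `m' = 30m` are kept) for `α` and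
`β_b cc N c (v b)`; Cauchy-Schwarz over the intervals.  The error: `cc N c (ab) ≠ cc N c (v b)`, `a ≤ v`, only if some cube
`n³`, `N ≤ n ≤ 2N`, satisfies `ab ≤ n³ < v b` or (`n³ < ..`); then `n³(1 - 1/ρ) ≤ ab ≤ n³` (for `v ≤ u(1+1/ρ)`, `a > u`; if `v = u+1 = a`
there is no error). -/
def PTN_stmt : Prop := ∃ C : ℝ, 0 < C ∧ ∀ (N : ℕ) (c : ℕ → ℝ) (Q : ℝ) (R ρ : ℕ) (r : ℕ → ℕ) (α β : ℕ → ℝ)
  (M₁ M₂ K₁ K₂ : ℕ), 1 ≤ N → (∀ n, |c n| ≤ 1) → 1 ≤ Q → 1 ≤ R → 2 ≤ ρ → 1 ≤ M₁ → M₁ ≤ M₂ → M₂ ≤ 2 * M₁ → K₁ ≤ K₂ →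
  ∑ m ∈ Mo Q, |∑ a ∈ Ioc M₁ M₂, ∑ b ∈ Ioc K₁ K₂, α a * β b * (cc N c (a * b) * kp R (30 * m) (r m) (a * b))| ≤
    C * (1 + Real.log Q) / R *
      √((((M₂ - M₁ : ℕ) : ℝ) + C * ρ * R ^ 2) * (((K₂ - K₁ : ℕ) : ℝ) + C * R ^ 2) *
        (∑ a ∈ Ioc M₁ M₂, α a ^ 2) * (∑ b ∈ Ioc K₁ K₂, β b ^ 2)) +
    2 * ∑ a ∈ Ioc M₁ M₂, ∑ b ∈ Ioc K₁ K₂, |α a| * |β b| *
      ((if ∃ n ∈ Icc N (2 * N), n ^ 3 * (ρ - 1) ≤ a * b * ρ ∧ a * b ≤ n ^ 3 then 1 else 0) *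
        ∑ m ∈ Mo Q, |kp R (30 * m) (r m) (a * b)|)

/-- **ERR** (medium).  From KSM.  `h j = j + 6` resp. `j - 6` (`ab ≥ N³/2`).  The number of `j` with
`n³(1 - 1/ρ) ≤ j ≤ n³` for some `N ≤ n ≤ 2N` is at most `(N+1)(8N³/ρ + 1) ≤ 20 N^(3-ε)` for `ρ ≥ N^(1+ε)`; each `j` has
`τ(j)` representations, `τ(j) τ(h j) ≤ N^(ε/4)` (divisor bound). -/
def ERR_stmt : Prop := ∀ ε : ℝ, 0 < ε → ε ≤ 1 → ∃ N₀ : ℕ, ∀ N : ℕ, N₀ ≤ N → ∀ (Q : ℝ) (R ρ : ℕ) (r : ℕ → ℕ)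
  (α β : ℕ → ℝ) (M₁ M₂ K₁ K₂ : ℕ), 1 ≤ Q → Q ≤ N → 1 ≤ R → (N : ℝ) ^ (1 + ε) ≤ ρ → (ClP r ∨ ClB r) →
  (∀ a, |α a| ≤ (N : ℝ) ^ (ε / 16)) → (∀ b, |β b| ≤ (N : ℝ) ^ (ε / 16)) →
  ∑ a ∈ Ioc M₁ M₂, ∑ b ∈ Ioc K₁ K₂, |α a| * |β b| *
      ((if ∃ n ∈ Icc N (2 * N), n ^ 3 * (ρ - 1) ≤ a * b * ρ ∧ a * b ≤ n ^ 3 then 1 else 0) *
        ∑ m ∈ Mo Q, |kp R (30 * m) (r m) (a * b)|) ≤ (N : ℝ) ^ (3 - ε / 4)

/-- **TY1** (short, medium).  `GD.BV2` on each of the `N` windows: the `b` with `d b ∈ Win n`, `b ≤ y` form an interval. -/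
def TY1_stmt : Prop := ∀ (N : ℕ) (c : ℕ → ℝ) (R M a d y : ℕ), (∀ n, |c n| ≤ 1) → 1 ≤ R → 0 < M →
  |∑ b ∈ Ioc 0 y, cc N c (d * b) * kp R M a (d * b)| ≤ 4 * N * R * #M.divisors

/-- **BKB** (medium, long).  One block.  From PTN, ERR with `ρ = ⌈N^(1+ε)⌉₊` (`ε` small against the level: `Q = N^(1-2ε)`, `R ≤ 30 Q`,
for `R > 30 Q` all `kp R (30m)` vanish).  `MK ≤ 8N³`, `V ≤ 2K`, `K ≤ M`; with `S = (log N)^E`: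
`(C log/R) √((M + CρR²)(K + CR²) M K S²)  ≤ C' log S (N³/R + N^(3/2)(√M + √(ρK)) + N^(3/2) R √ρ)` with
`√M ≤ √(16N³/V)`, `√(ρK) ≤ N^(5/4+ε)`, `R√ρ ≤ N^(3/2-ε)`, `V = N^κ`. -/
def BKB_stmt : Prop := ∀ (ε κ : ℝ) (E : ℕ), 0 < ε → ε ≤ 1 / 10 → 0 < κ → ∃ (C δ : ℝ) (N₀ : ℕ), 0 < C ∧ 0 < δ ∧
  ∀ N : ℕ, N₀ ≤ N → ∀ c : ℕ → ℝ, (∀ n, |c n| ≤ 1) → ∀ r : ℕ → ℕ, (ClP r ∨ ClB r) → ∀ (R M K : ℕ) (α β : ℕ → ℝ),
  1 ≤ R → K ≤ M → (N : ℝ) ^ κ ≤ K → M * K ≤ 8 * N ^ 3 →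
  (∀ a, |α a| ≤ (N : ℝ) ^ (ε / 16)) → (∀ b, |β b| ≤ (N : ℝ) ^ (ε / 16)) →
  ∑ a ∈ Ioc M (2 * M), α a ^ 2 ≤ M * Real.log N ^ E → ∑ b ∈ Ioc K (2 * K), β b ^ 2 ≤ K * Real.log N ^ E →
  ∑ m ∈ Mo ((N : ℝ) ^ (1 - 2 * ε)), |∑ a ∈ Ioc M (2 * M), ∑ b ∈ Ioc K (2 * K),
      α a * β b * (cc N c (a * b) * kp R (30 * m) (r m) (a * b))| ≤
    C * (N : ℝ) ^ 3 * Real.log N ^ (E + 1) / R + (N : ℝ) ^ (3 - δ)

/-- **BVL** (medium, long).  `theorem BVL (..) : BVL_stmt` (statement in SpecW.lean).  From TY1, BKB.  We may take `ε` small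
(the sum over `Mo` increases with the level), `Q = N^(1-2ε)`.  For each `m` `Pool.Agent.helper85.SQ.single` with
`κ n = cc N c n · kp R (30m) (r m) n`, `T = 4NR·τ(30m) ≤ N^(2-2ε+ε/4)`, `U = ⌊N^(ε/4)⌋`: type I total `≤ N^(1-2ε) N^(2-ε..) N^(ε/2) ≤ N^(3-ε)`.
Type II: only `N³ < ab ≤ 8N³` count (`cc`), so the sum is the sum over the full dyadic blocks `(2^i, 2^(i+1)] × (2^l, 2^(l+1)]`
(`2^(i+l) ≤ 8N³`), `α = alpha U`, `β = beta U` (`|beta| ≤ τ ≤ N^(ε/16)` in the range: cut the coefficients to `≤ 64N³`); BKB with the larger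
variable first, `κ = ε/5`. `(log N)^B ≤ R` with `B` large beats `(log N)^(E+3)`. -/
def BVLr_stmt : Prop := BVL_stmt

/-- **BQL** (medium).  `theorem BQL (..) : BQL_stmt` (statement in SpecQ.lean).  From BKB: `b = p k` uniquely, dyadic blocks,
`α = 1_{K3}` (larger variable, `k ≥ N³/y ≥ N^(11/5)`), `β = 1_{P1}` (`p ≥ N^(1/6)`). -/
def BQLr_stmt : Prop := BQL_stmt

end Pool.Agent.CH
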