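import Pool.Agent.helper17.CH.SpecW

/-!
# Project CH (MP_5628fe_nt), part Q (switched sequence) and assembly

Page: /team-store/MP_5628fe_CH_page.md.

RULES.  File `Pool/Agent/<seat>/CH/XX.lean`, `import Pool.Agent.helper17.CH.SpecQ`, `namespace Pool.Agent.CH`,
`theorem XX (h1 : YY_stmt) ... : XX_stmt` (any other statement of SpecQ, SpecW, SpecV may be a hypothesis, no
circles), auxiliary lemmas prefixed `XX_` and private where possible.  Never change this file.  If a statement is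
wrong tell helper17 at once.

`Bs z y b`: `b = p k`, `p` a prime of `[z,y)`, `k = p₂p₃p₄` with primes `y ≤ p₂ ≤ p₃ ≤ p₄` (DefsW.lean).  The
representation is unique (`p` is the only prime factor `< y` of `b`).
-/

set_option autoImplicit false

namespace Pool.Agent.CH

open Finset ArithmeticFunction MeasureTheory
open GD (kp ks)

/-- admissible parameters -/
def PZ (N : ℕ) (z y : ℝ) : Prop :=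
  (N : ℝ) ^ (1 / 6 : ℝ) ≤ z ∧ z ≤ y ∧ 8 * (N : ℝ) ^ 3 ≤ y ^ 4 ∧ y ≤ (N : ℝ) ^ (4 / 5 : ℝ)

open Classical in
/-- the elements of the switched sequence up to `64 N³` -/
noncomputable def BN (N : ℕ) (z y : ℝ) : Finset ℕ := (Ioc 0 (64 * N ^ 3)).filter fun b => Bs z y b

open Classical in
/-- coefficients `1_{P1} χ` -/
noncomputable def aP {q : ℕ} (χ : DirichletCharacter ℂ q) (z y : ℝ) (p : ℕ) : ℂ := if P1 z y p then χ p else 0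

open Classical in
/-- coefficients `1_{K3} χ` -/
noncomputable def aK {q : ℕ} (χ : DirichletCharacter ℂ q) (y : ℝ) (k : ℕ) : ℂ := if K3 y k then χ k else 0

/-! ## Small conductors -/

/-- **QD** (medium).  Unique representation `b = p k` and dyadic blocks; compare VAU of SpecW (same error terms). -/
def QD_stmt : Prop := ∃ N₀ : ℕ, ∀ N : ℕ, N₀ ≤ N → ∀ (z y : ℝ), PZ N z y → ∀ (q : ℕ) (χ : DirichletCharacter ℂ q)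
  (g : ℕ → ℂ), (∀ j, ‖g j‖ ≤ 2) →
  (∀ j : ℕ, 1 ≤ j → (2 * j ≤ N ^ 3 ∨ 16 * N ^ 3 ≤ j) → ‖g j‖ ≤ 1 / (N : ℝ) ^ 10) →
  ‖∑ b ∈ BN N z y, χ b * g b‖ ≤ 1 + ∑ w ∈ PP N, ‖BLb (2 ^ w.1) (2 ^ w.2) (aP χ z y) (aK χ y) g‖

/-- **QI** (medium).  From SUP (c), MVT.  If the block of `P1` is not empty then `z ≤ 2M`, `M < y ≤ N^(4/5)`, so
`M ≥ N^(1/6)/2 ≥ N^(1/7)` and `K ≥ N³/(64 M) ≥ N^(2.2)/64`.  `DPb M (aP χ z y)` is a sum over the primes of an interval inside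
`[M, 2M)`: SUP (c) with `ε = 1/7`; MVT for `K`, `|aK| ≤ 1`. -/
def QI_stmt : Prop := ∀ (ε : ℝ) (A B : ℕ), 0 < ε → ε ≤ 1 / 20 → ∃ B₁ N₀ : ℕ, ∀ N : ℕ, N₀ ≤ N → ∀ q : ℕ, 1 ≤ q →
  (q : ℝ) ≤ Real.log N ^ B → ∀ χ : DirichletCharacter ℂ q, ∀ z y : ℝ, PZ N z y → ∀ M K : ℕ,
  1 ≤ M → 1 ≤ K → N ^ 3 ≤ 64 * (M * K) → M * K ≤ 64 * N ^ 3 →
  ∫ t in Tset ε B₁ N, ‖DPb M (aP χ z y) t‖ ^ 2 * ‖DPb K (aK χ y) t‖ ^ 2 ≤ (N : ℝ) ^ 6 / Real.log N ^ A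

/-- **QHW** (medium).  From QD, QI, HPB, CCB as HW. -/
def QHW_stmt : Prop := ∀ (ε : ℝ) (A B : ℕ), 0 < ε → ε ≤ 1 / 20 → ∃ B₀ : ℕ, ∀ B₂ : ℕ, B₀ ≤ B₂ → ∃ N₀ : ℕ,
  ∀ N : ℕ, N₀ ≤ N → ∀ c : ℕ → ℝ, (∀ n, |c n| ≤ 1) → ∀ z y : ℝ, PZ N z y →
  ∀ q : ℕ, 1 ≤ q → (q : ℝ) ≤ Real.log N ^ B → ∀ χ : DirichletCharacter ℂ q,
    ‖∑ b ∈ BN N z y, χ b * gW N c (de ε N) (dB B₂ N) b‖ ≤ (N : ℝ) ^ 3 / Real.log N ^ A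

/-- **QPS** (medium).  For fixed `p₁, p₂ ≤ p₃` the sum over the primes `p₄` of `[p₃, u/(p₁p₂p₃)]`, `u/(p₁p₂p₃) ≥ p₃ ≥ y ≥ N^(3/4)`:
`psi_char` (helper74/TG/SW.lean) and partial summation give `≤ u/(p₁p₂p₃)/(log N)^(A+4)`;
`∑ 1/(p₁p₂p₃) ≤ (1 + log(64N³))³`. -/
def QPS_stmt : Prop := ∀ A B : ℕ, ∃ N₀ : ℕ, ∀ N : ℕ, N₀ ≤ N → ∀ z y : ℝ, PZ N z y → ∀ q : ℕ, 1 ≤ q →
  (q : ℝ) ≤ Real.log N ^ B → ∀ χ : DirichletCharacter ℂ q, χ ≠ 1 → ∀ u ≤ 64 * N ^ 3,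
  ‖∑ b ∈ (BN N z y).filter (fun b => b ≤ u), χ b‖ ≤ (N : ℝ) ^ 3 / Real.log N ^ A

/-- **QN** (short, medium).  From QHW, BD, LPS, QPS as WN. -/
def QN_stmt : Prop := ∀ A B : ℕ, ∃ N₀ : ℕ, ∀ N : ℕ, N₀ ≤ N → ∀ z y : ℝ, PZ N z y → ∀ q : ℕ, 1 ≤ q →
  (q : ℝ) ≤ Real.log N ^ B → ∀ χ : DirichletCharacter ℂ q, χ ≠ 1 → ∀ c : ℕ → ℝ, (∀ n, |c n| ≤ 1) →
  ‖∑ b ∈ BN N z y, χ b * (cc N c b : ℂ)‖ ≤ (N : ℝ) ^ 3 / Real.log N ^ A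

/-- **QSC** (medium).  From QN as SC.  The elements of `BN` with a common factor with `M ≤ 64N³`: their common prime factor is
`≥ z ≥ N^(1/6)`, `M` has at most 20 such prime factors, so there are at most `20 · 64 N³/N^(1/6)` of them. -/
def QSC_stmt : Prop := ∀ A B : ℕ, ∃ N₀ : ℕ, ∀ N : ℕ, N₀ ≤ N → ∀ z y : ℝ, PZ N z y → ∀ c : ℕ → ℝ,
  (∀ n, |c n| ≤ 1) → ∀ M a R : ℕ, 0 < M → M ≤ 64 * N ^ 3 → Nat.Coprime a M → 1 ≤ R →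
  (R : ℝ) ≤ Real.log N ^ B →
  |∑ b ∈ BN N z y, cc N c b * ks R M a b - (1 / (Nat.totient M : ℝ)) * ∑ b ∈ BN N z y, cc N c b| ≤
    (1 / (Nat.totient M : ℝ)) * ((N : ℝ) ^ 3 / Real.log N ^ A)

/-- **BQL** (large conductors; part B, project of helper85; not a row). -/
def BQL_stmt : Prop := ∀ (ε : ℝ) (A : ℕ), 0 < ε → ε < 1 → ∃ B N₀ : ℕ, ∀ N : ℕ, N₀ ≤ N →
  ∀ z y : ℝ, PZ N z y → ∀ c : ℕ → ℝ, (∀ n, |c n| ≤ 1) → ∀ r : ℕ → ℕ, ClB r → ∀ R : ℕ, Real.log N ^ B ≤ R →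
  ∑ m ∈ Mo ((N : ℝ) ^ (1 - ε)), |∑ b ∈ BN N z y, cc N c b * kp R (30 * m) (r m) b| ≤
    (N : ℝ) ^ 3 / Real.log N ^ A

/-- **BQW** (medium).  From BQL, QSC as BVW. -/
def BQW_stmt : Prop := ∀ (ε : ℝ) (A : ℕ), 0 < ε → ε < 1 → ∃ N₀ : ℕ, ∀ N : ℕ, N₀ ≤ N →
  ∀ z y : ℝ, PZ N z y → ∀ r : ℕ → ℕ, ClB r → ∀ l : ℕ → ℝ, (∀ m, |l m| ≤ 1) →
  ∑ n ∈ Ico N (2 * N), |∑ m ∈ Mo ((N : ℝ) ^ (1 - ε)), l m *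
    ((#((BN N z y ∩ Win n).filter fun b => b ≡ r m [MOD 30 * m]) : ℝ) -
      (#(BN N z y ∩ Win n) : ℝ) / (Nat.totient (30 * m) : ℝ))| ≤ (N : ℝ) ^ 3 / Real.log N ^ A

/-! ## Counting the switched sequence -/

/-- **MER** (medium, short).  Mertens, upper bound: partial summation from `∑_{p ≤ x} log p/p = log x + O(1)` (e.g. Pool/Agent/Lib/PrimeSums.lean,
`BB6a.mertens` in helper22/OC/BB6a.lean, G2 of project GD). -/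
def MER_stmt : Prop := ∃ C : ℝ, 0 < C ∧ ∀ a b : ℝ, 2 ≤ a → a ≤ b →
  ∑ p ∈ (Icc 1 ⌊b⌋₊).filter (fun p : ℕ => p.Prime ∧ a ≤ (p : ℝ)), 1 / (p : ℝ) ≤
    Real.log (Real.log b / Real.log a) + C / Real.log a

/-- **MAB** (medium).  From MER.  Abel summation for a nonincreasing `F ≥ 0` (compare ABL_stmt in helper79/SX/Spec.lean). -/
def MAB_stmt : Prop := ∃ C : ℝ, 0 < C ∧ ∀ (α β L : ℝ) (F : ℝ → ℝ), 0 < α → α ≤ β → 1 ≤ α * L →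
  AntitoneOn F (Set.Icc α β) → (∀ t ∈ Set.Icc α β, 0 ≤ F t) →
  ∑ p ∈ (Icc 1 ⌊Real.exp (β * L)⌋₊).filter (fun p : ℕ => p.Prime ∧ Real.exp (α * L) ≤ (p : ℝ)),
      F (Real.log p / L) / (p : ℝ) ≤ (∫ t in α..β, F t / t) + C * F α / (α * L)

/-- **TRI** (medium).  From MER, MAB.  `E = log(W/y)/log y ∈ [1,3]`; inner sum over `y ≤ p₃ ≤ W/p₂` is
`≤ log(log(W/p₂)/log y) + C/log y ≤ (E - log p₂/log y) + C/log y`; MAB with `L = log y`, `α = 1`, `β = E`,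
`∫_1^E (E-t) dt/t ≤ (E-1)²/2`.  If `W < y²` the sum is empty. -/
def TRI_stmt : Prop := ∃ C : ℝ, 0 < C ∧ ∀ y W : ℝ, 3 ≤ y → W ≤ y ^ 4 →
  ∑ p ∈ (Icc 1 ⌊W⌋₊).filter (fun p : ℕ => p.Prime ∧ y ≤ (p : ℝ)),
    ∑ p' ∈ (Icc 1 ⌊W⌋₊).filter (fun p' : ℕ => p'.Prime ∧ y ≤ (p' : ℝ) ∧ (p : ℝ) * p' ≤ W),
      1 / ((p : ℝ) * p') ≤ (max 0 (Real.log W / Real.log y - 2)) ^ 2 / 2 + C / Real.log y

open Classical in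
/-- **SP** (medium).  From TRI, MAB, MER.  `X = 8N³`, `Λ = log X`, `β = log p/Λ ≥ log z/Λ ≥ 1/18 - o(1)`, `log y ≥ Λ/4`.  `W = 2u/(p y)`,
`u ≤ 16N³`: `log W/log y - 2 ≤ (Λ + log 4 - log p)/log y - 3 ≤ 1 - 4β + o(1)`.  So the sum is at most
`∑_p (1/p)((max 0 (1-4β))²/2 + o(1)) ≤ ∫_{1/18-o(1)}^{1/4} (1-4t)²/2 dt/t + o(1)` and the integral from `1/18` is
`(1/2) log(9/2) - 4(1/4-1/18) + 4(1/16-1/324) = 0.21192...` (`W ≤ y^4` holds). -/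
def SP_stmt : Prop := ∃ N₀ : ℕ, ∀ N : ℕ, N₀ ≤ N → ∀ z y u : ℝ, PZ N z y → 0 < u → u ≤ 16 * (N : ℝ) ^ 3 →
  ∑ p ∈ (Icc 1 (64 * N ^ 3)).filter (fun p => P1 z y p),
    ∑ p₂ ∈ (Icc 1 (64 * N ^ 3)).filter (fun p₂ : ℕ => p₂.Prime ∧ y ≤ (p₂ : ℝ)),
      ∑ p₃ ∈ (Icc 1 (64 * N ^ 3)).filter (fun p₃ : ℕ => p₃.Prime ∧ y ≤ (p₃ : ℝ) ∧ (p : ℝ) * p₂ * p₃ * y ≤ 2 * u),
        1 / ((p : ℝ) * p₂ * p₃) ≤ 213 / 1000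

/-- **PI** (medium).  Primes in intervals of relative length `≥ (log v)^(-B)`: `psi_pnt` (helper74/TG/SW10.lean) with a larger
exponent; `∑_{v<p≤v+h} log p ≤ ψ(v+h) - ψ(v)`. -/
def PI_stmt : Prop := ∀ (κ : ℝ) (B : ℕ), 0 < κ → ∃ v₀ : ℝ, ∀ v h : ℝ, v₀ ≤ v → v / Real.log v ^ B ≤ h → h ≤ v →
  (#((Ioc ⌊v⌋₊ ⌊v + h⌋₊).filter Nat.Prime) : ℝ) ≤ (1 + κ) * h / Real.log v

/-- **CBP** (medium).  From SP, PI.  `b = p p₂ p₃ p₄ ∈ (u, u+h]`: every `b` with distinct `p₂,p₃,p₄` arises from 6 triples `(p₂,p₃,p₄)`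
of primes `≥ y`; for `(p,p₂,p₃)` (`p p₂ p₃ y ≤ 2u`) the `p₄` is a prime of `(v, v + hv/u]`, `v = u/(p p₂ p₃) ≥ y/2`, `v ≥ N^(3/4)/2`, their
number is at most `(1+κ)(h/(p p₂ p₃))(4/3)/log N`.  `213/1000 · (4/3)/6 = 0.04733...`.  The `b` with a square factor `p₂²`, `p₂ ≥ y`:
`≤ ∑ 2u/p₂² ≤ 4u/y`. -/
def CBP_stmt : Prop := ∀ B : ℕ, ∃ N₀ : ℕ, ∀ N : ℕ, N₀ ≤ N → ∀ z y u h : ℝ, PZ N z y →
  (N : ℝ) ^ 3 / 4 ≤ u → u ≤ 16 * (N : ℝ) ^ 3 → u / Real.log N ^ B ≤ h → h ≤ u →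
  (#((BN N z y).filter fun b : ℕ => u < (b : ℝ) ∧ (b : ℝ) ≤ u + h) : ℝ) ≤ 1 / 20 * h / Real.log N

/-- **CBL** (medium).  From CBP, CCB.  `P(u) = Ph N c (dB B₂ N) (log u) ≥ 0` is tiny outside `(N³/2, 16N³)` (CCB) and
`|P(u) - P(u')| ≤ |log(u/u')|/dB` (`|ph'|` has integral `≤ 1/δ`, `|CC| ≤ 1`).  Cut `(N³/2, 16N³]` into intervals `(u, u+h]` of relative
length `(log N)^(-B₂-A-2)`, CBP on each. -/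
def CBL_stmt : Prop := ∀ A B₂ : ℕ, 1 ≤ B₂ → ∃ N₀ : ℕ, ∀ N : ℕ, N₀ ≤ N → ∀ z y : ℝ, PZ N z y → ∀ c : ℕ → ℝ,
  (∀ n, 0 ≤ c n) → (∀ n, |c n| ≤ 1) →
  ∑ b ∈ BN N z y, Ph N c (dB B₂ N) (Real.log b) ≤
    1 / 20 / Real.log N * ∑ j ∈ Ioc (0 : ℕ) (64 * N ^ 3), Ph N c (dB B₂ N) (Real.log (j : ℝ)) +
      (N : ℝ) ^ 3 / Real.log N ^ A

/-- **CB** (medium).  From CBL, QHW (`q = 1`, `χ = 1`), HW (second part), BD (for `f = 1_BN` and `f = 1`).  `c` = indicator of the bad `n`: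
`∑_{n bad} #(BN ∩ Win n) = ∑_b cc b ≤ (1/20)/log N · ∑_j cc j + 4N³/(log N)^(A+3)`, `#(Win n) = 3n²+3n+1`, and for bad `n`
`#(BN ∩ Win n) - (1/20) #(Win n)/log N ≥ (1/200) n²/log N`. -/
def CB_stmt : Prop := ∀ A : ℕ, ∃ N₀ : ℕ, ∀ N : ℕ, N₀ ≤ N → ∀ z y : ℝ, PZ N z y →
  (#((Ico N (2 * N)).filter fun n : ℕ => 4 / 25 * (n : ℝ) ^ 2 / Real.log N < (#(BN N z y ∩ Win n) : ℝ)) : ℝ) ≤
    N / Real.log N ^ A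

/-! ## The sieve (part S, project of helper27) and the assembly -/

/-- `(8N³)^(17/300)` -/
noncomputable def zS (N : ℕ) : ℝ := (8 * (N : ℝ) ^ 3) ^ (17 / 300 : ℝ)
/-- `(8N³)^(1/4)` -/
noncomputable def yS (N : ℕ) : ℝ := (8 * (N : ℝ) ^ 3) ^ (1 / 4 : ℝ)
/-- `(8N³)^(8/75)` -/
noncomputable def z2 (N : ℕ) : ℝ := (8 * (N : ℝ) ^ 3) ^ (8 / 75 : ℝ)

open Classical in
/-- **SLV** (part S, project of helper27; not a row). -/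
def SLV_stmt : Prop := ∃ (c₀ : ℝ) (N₀ : ℕ), 0 < c₀ ∧ ∀ N : ℕ, N₀ ≤ N → ∃ l₁ l₂ : ℕ → ℝ,
  (∀ m, |l₁ m| ≤ 1 ∧ |l₂ m| ≤ 1) ∧
  (∀ m, (l₁ m ≠ 0 ∨ l₂ m ≠ 0) → Squarefree m ∧ Nat.Coprime m 30 ∧ (m : ℝ) ≤ (N : ℝ) ^ (124 / 125 : ℝ)) ∧
  (∀ a : ℕ, 1 ≤ a → ∑ m ∈ a.divisors, l₁ m ≤
    if ∃ q : ℕ, q.Prime ∧ q ∣ a ∧ 7 ≤ q ∧ (q : ℝ) < zS N then 0
    else 1 - 1 / 2 * (#(a.primeFactors.filter fun q : ℕ => zS N ≤ (q : ℝ) ∧ (q : ℝ) < yS N) : ℝ)) ∧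
  (∀ a : ℕ, 1 ≤ a → (if ∃ q : ℕ, q.Prime ∧ q ∣ a ∧ 7 ≤ q ∧ (q : ℝ) < z2 N then (0 : ℝ) else 1) ≤
    ∑ m ∈ a.divisors, l₂ m) ∧
  0 ≤ ∑ m ∈ Icc 1 ⌊(N : ℝ) ^ (124 / 125 : ℝ)⌋₊, l₂ m / (Nat.totient m : ℝ) ∧
  c₀ / Real.log N ≤ ∑ m ∈ Icc 1 ⌊(N : ℝ) ^ (124 / 125 : ℝ)⌋₊, l₁ m / (Nat.totient m : ℝ) -
    1 / 10 * ∑ m ∈ Icc 1 ⌊(N : ℝ) ^ (124 / 125 : ℝ)⌋₊, l₂ m / (Nat.totient m : ℝ)

/-- The primes counted in the theorem: `n³ < p`, `p + 6 < (n+1)³`, `p ≡ 1 mod 30`, `p + 6` has at most three prime factors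
(with multiplicity), each `> n^(1/6)`. -/
noncomputable def GP (n : ℕ) : Finset ℕ := (Ioo (n ^ 3) ((n + 1) ^ 3)).filter fun p =>
  p.Prime ∧ p + 6 < (n + 1) ^ 3 ∧ p % 30 = 1 ∧ cardFactors (p + 6) ≤ 3 ∧ ∀ q ∈ (p + 6).primeFactors, n < q ^ 6

open Classical in
/-- **COM** (medium; combinatorics of the switching).  Prime factors of `a` are `≥ 7`, hence `≥ z`, and simple.  Let `k` of them be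
in `[z,y)`, `l` in `[y,∞)`: `l ≤ 3` since `a < 8N³ ≤ y⁴`.  The weight is `1 - k/2 - [Bs]/2 > 0`: `k = 0`, or `k = 1` and not `Bs`, so
`l ≤ 2` (for `k = 1`, `l = 3` we have `Bs z y a`). -/
def COM_stmt : Prop := ∀ (N a : ℕ) (z y : ℝ), PZ N z y → 1 ≤ a → a < 8 * N ^ 3 → Nat.Coprime a 30 →
  (∀ q : ℕ, q.Prime → z ≤ (q : ℝ) → ¬ q ^ 2 ∣ a) →
  0 < (if ∃ q : ℕ, q.Prime ∧ q ∣ a ∧ 7 ≤ q ∧ (q : ℝ) < z then 0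
      else 1 - 1 / 2 * (#(a.primeFactors.filter fun q : ℕ => z ≤ (q : ℝ) ∧ (q : ℝ) < y) : ℝ)) -
      (if Bs z y a then (1 / 2 : ℝ) else 0) →
  cardFactors a ≤ 3 ∧ ∀ q ∈ a.primeFactors, z ≤ (q : ℝ)

/-- **SQB** (short, medium).  Multiples of `q²` in the window: `≤ #(Win n)/q² + 1`, `q ≤ 3N^(3/2)`; `∑_{q ≥ z} 1/q² ≤ 2/z`.
Prime powers `j = p^k`, `k ≥ 2` in `Win n`: at most `C N^(3/2)·log N` (all of them up to `8N³`). -/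
def SQB_stmt : Prop := ∃ N₀ : ℕ, ∀ N : ℕ, N₀ ≤ N → ∀ n ∈ Ico N (2 * N),
  (∀ z : ℝ, (N : ℝ) ^ (1 / 6 : ℝ) ≤ z → ∀ [DecidablePred fun j : ℕ => ∃ q : ℕ, q.Prime ∧ z ≤ (q : ℝ) ∧ q ^ 2 ∣ j + 6],
    (#((Win n).filter fun j : ℕ => ∃ q : ℕ, q.Prime ∧ z ≤ (q : ℝ) ∧ q ^ 2 ∣ j + 6) : ℝ) ≤ (N : ℝ) ^ (15 / 8 : ℝ)) ∧
  (#((Win n).filter fun j : ℕ => ¬ j.Prime ∧ vonMangoldt j ≠ 0) : ℝ) ≤ (N : ℝ) ^ (15 / 8 : ℝ)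

open Classical in
/-- **WIN** (medium, long; one window).  From COM, SQB.  `l₁, l₂` as in SLV_stmt.  For `j ∈ Win n`, `j ≡ 1 mod 30`, `a = j + 6`
(`a ≡ 7 mod 30`).  (1) `Λ(j) ∑_{m ∣ a} l₁ m ≤ log j ·` (weight of COM + `[Bs a]/2`) for primes `j`, `≤ log j` for prime powers.  Primes with
weight `> 0`, without `q² ∣ a`, `a < (n+1)³`: in `GP n` (`q ≥ zS N ≥ (2N)^(1/6) > n^(1/6)`), weight `≤ 1`.  (2) primes `j` with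
`Bs a`, `a ∈ Win n`: `j = a - 6` and `1 ≤ ∑_{m ∣ j} l₂ m` (`j > z2 N`); the other `b ∈ BN ∩ Win n`, `b ≡ 7 mod 30` have
`∑_{m ∣ b-6} l₂ m ≥ 0`.  At most 6 elements `j` have `j + 6 ∉ Win n`. -/
def WIN_stmt : Prop := ∃ N₀ : ℕ, ∀ N : ℕ, N₀ ≤ N → ∀ l₁ l₂ : ℕ → ℝ,
  (∀ a : ℕ, 1 ≤ a → ∑ m ∈ a.divisors, l₁ m ≤
    if ∃ q : ℕ, q.Prime ∧ q ∣ a ∧ 7 ≤ q ∧ (q : ℝ) < zS N then 0
    else 1 - 1 / 2 * (#(a.primeFactors.filter fun q : ℕ => zS N ≤ (q : ℝ) ∧ (q : ℝ) < yS N) : ℝ)) →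
  (∀ a : ℕ, 1 ≤ a → (if ∃ q : ℕ, q.Prime ∧ q ∣ a ∧ 7 ≤ q ∧ (q : ℝ) < z2 N then (0 : ℝ) else 1) ≤
    ∑ m ∈ a.divisors, l₂ m) → ∀ n ∈ Ico N (2 * N),
  ∑ j ∈ Win n with j % 30 = 1, vonMangoldt j * ∑ m ∈ (j + 6).divisors, l₁ m -
    Real.log (8 * (N : ℝ) ^ 3) / 2 *
      ∑ b ∈ (BN N (zS N) (yS N) ∩ Win n).filter (fun b => b % 30 = 7), ∑ m ∈ (b - 6).divisors, l₂ m ≤
    Real.log (8 * (N : ℝ) ^ 3) * ((#(GP n) : ℝ) + 3 * (N : ℝ) ^ (15 / 8 : ℝ))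

/-- **EXC** (medium).  Interchange of summation and the Chinese remainder theorem: for `m` prime to `30` the conditions
`j % 30 = 1`, `m ∣ j + 6` are `j ≡ r m mod 30 m` (`ClP r`), and `b % 30 = 7`, `m ∣ b - 6` are `b ≡ r m mod 30 m` (`ClB r`; `b ≥ 7`).
Such `r` exist. -/
def EXC_stmt : Prop := (∃ r : ℕ → ℕ, ClP r) ∧ (∃ r : ℕ → ℕ, ClB r) ∧
  (∀ (l : ℕ → ℝ) (Q : ℝ) (r : ℕ → ℕ) (S : Finset ℕ), ClP r →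
    (∀ m, l m ≠ 0 → Nat.Coprime m 30 ∧ (m : ℝ) ≤ Q) →
    ∑ j ∈ S with j % 30 = 1, vonMangoldt j * ∑ m ∈ (j + 6).divisors, l m =
      ∑ m ∈ Mo Q, l m * ∑ j ∈ S with j ≡ r m [MOD 30 * m], vonMangoldt j) ∧
  ∀ (l : ℕ → ℝ) (Q : ℝ) (r : ℕ → ℕ) (S : Finset ℕ), ClB r → (∀ b ∈ S, 7 ≤ b) →
    (∀ m, l m ≠ 0 → Nat.Coprime m 30 ∧ (m : ℝ) ≤ Q) →
    ∑ b ∈ S with b % 30 = 7, ∑ m ∈ (b - 6).divisors, l m =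
      ∑ m ∈ Mo Q, l m * (#(S.filter fun b => b ≡ r m [MOD 30 * m]) : ℝ)

/-- **FID** (medium, long).  From BVW, BQW, CB, SLV, WIN, EXC (`ε = 1/125`, `Q = N^(124/125)`, `PZ N (zS N) (yS N)` for large `N`).  Outside an
exceptional set of `≤ N/(log N)^A` elements `n` (Markov; BVW, BQW with exponent `A + 10`, CB) with `S₁ = ∑ l₁/φ`, `S₂ = ∑ l₂/φ ≥ 0`,
`φ(30m) = 8φ(m)`, WIN gives
`(#(Win n)/8)(S₁ - (1/2)(log(8N³)/#(Win n)) #(BN ∩ Win n) S₂) - N²/(log N)^4 ≤ log(8N³)(#(GP n) + 3N^(15/8))` and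
`log(8N³) #(BN ∩ Win n) ≤ (1/5) #(Win n)` (CB: `4/25 n² (3 + o(1)) ≤ (1/5)(3n²)`). -/
def FID_stmt : Prop := ∃ c : ℝ, 0 < c ∧ ∀ A : ℕ, ∃ N₀ : ℕ, ∀ N : ℕ, N₀ ≤ N →
  (#((Ico N (2 * N)).filter fun n : ℕ => (#(GP n) : ℝ) < c * (n : ℝ) ^ 2 / Real.log n ^ 2) : ℝ) ≤ N / Real.log N ^ A

open Classical in
/-- **DYL** (short, medium).  `f N ≤ f (N/2) + M/(log M)^A`, `M = N/2 + 1`; compare DYA_stmt in helper27/SY/Spec.lean.  Sum the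
blocks `[N/2^(i+1), N/2^i)` with `N/2^i ≥ √N`: `log ≥ (log N)/2 - 1`; the rest is `≤ √N`. -/
def DYL_stmt : Prop := ∀ (S : ℕ → Prop) (A N₀ : ℕ),
  (∀ N : ℕ, N₀ ≤ N → (#((Ico N (2 * N)).filter S) : ℝ) ≤ N / Real.log N ^ A) →
  ∃ C : ℝ, ∀ N : ℕ, 2 ≤ N → (#((Icc 1 N).filter S) : ℝ) ≤ C * N / Real.log N ^ A

end Pool.Agent.CH
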