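import Pool.Agent.helper17.CH.Defs

/-!
# Project CH (MP_5628fe_nt), part V: Dirichlet polynomials over primes at large height (Chudakov region)

Page: /team-store/MP_5628fe_CH_page.md.

RULES.  File `Pool/Agent/<seat>/CH/XX.lean`, `import Pool.Agent.helper17.CH.SpecV`, `namespace Pool.Agent.CH`,
`theorem XX (h1 : YY_stmt) ... : XX_stmt` (any other statement of this file may be a hypothesis, no circles),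
auxiliary lemmas prefixed `XX_` and private where possible.  Never change this file.  If a statement is wrong tell
helper17 at once.  No `convert`/`congr!` leaving Decidable goals.
`ee x = exp(2πi x)`, `gb X β = min(X, 1/(2‖β‖))` (helper74/TG/Defs.lean, lemmas in helper85/TG/VA1..VA4.lean);
`GG`, `DD` from helper39/MT/Defs.lean (lemmas in helper39/MT/AN*.lean, helper35/MT/AN3.lean, helper74/TG/SW6.lean).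
-/

set_option autoImplicit false

namespace Pool.Agent.CH

open Finset ArithmeticFunction
open Pool.Agent.helper74.TG (ee gb)
open Pool.Agent.helper39.MT (GG)

/-! ## A. Vinogradov's mean value theorem -/

/-- **LINA** (medium).  The power sums `∑ m_i^j` (`j ≤ k < p`) determine the elementary symmetric functions in
`ZMod (p^k)` (Newton's identities, `MvPolynomial.mul_esymm_eq_sum` or `Multiset` version; `j` is invertible modulo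
`p^k`), so for two solutions `m, m'` the polynomials `∏ (X - m_i)`, `∏ (X - m'_i)` over `ZMod (p^k)` agree and
`p^k ∣ ∏_i (m'_r - m_i)`; at most one factor is divisible by `p`, so `m'_r ≡ m_i mod p^k` for exactly one `i`, hence
`m'_r = m_i` (both in an interval of length `p^k`) and `m'` is a permutation of `m`. -/
def LINA_stmt : Prop := ∀ (k p : ℕ) (a : ℤ) (h : ℕ → ℤ), p.Prime → k < p →
  #((Fintype.piFinset fun _ : Fin k => Ioc a (a + (p : ℤ) ^ k)).filter fun m =>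
    (∀ i i' : Fin k, i ≠ i' → ¬ (p : ℤ) ∣ m i - m i') ∧
      ∀ j ∈ Icc 1 k, (p : ℤ) ^ k ∣ ∑ i, m i ^ j - h j) ≤ k.factorial

/-- **LIN** (medium; Linnik's lemma).  From LINA: the vector `(h'_j mod p^k)_j` of the power sums of `m` satisfies
`h'_j ≡ h_j mod p^j`: `∏_{j ≤ k} p^(k-j) = p^(k(k-1)/2)` possible vectors. -/
def LIN_stmt : Prop := ∀ (k p : ℕ) (a : ℤ) (h : ℕ → ℤ), p.Prime → k < p →
  #((Fintype.piFinset fun _ : Fin k => Ioc a (a + (p : ℤ) ^ k)).filter fun m =>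
    (∀ i i' : Fin k, i ≠ i' → ¬ (p : ℤ) ∣ m i - m i') ∧
      ∀ j ∈ Icc 1 k, (p : ℤ) ^ j ∣ ∑ i, m i ^ j - h j) ≤ k.factorial * p ^ (k * (k - 1) / 2)

/-- **JB** (medium).  Basic facts.  (1) monotone; (2) translation (binomial theorem: the system for `x + c` follows from
the one for `x`, also for `j = 0` since both sides have `s` variables), dilation; (3) `∑_u r(u+v) r(u) ≤ ∑ r(u)²`,
`r(u)` = number of `y ∈ A^s` with power sums `u` (Cauchy-Schwarz; only `j ∈ [1,k]` matters); (4) `r(v)² ≤ ∑ r²`;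
(5) `k` variables: the power sums determine the multiset (Newton's identities over `ℚ`), so at most `k!` tuples `y` for
every `x`; (6) trivial. -/
def JB_stmt : Prop :=
  (∀ (s k : ℕ) (A B : Finset ℤ), A ⊆ B → JJ s k A ≤ JJ s k B) ∧
  (∀ (s k : ℕ) (A : Finset ℤ) (c d : ℤ), d ≠ 0 → JJ s k (A.image fun x => d * x + c) = JJ s k A) ∧
  (∀ (s k : ℕ) (A : Finset ℤ) (v : ℕ → ℤ),
    #(((Fintype.piFinset fun _ : Fin s => A) ×ˢ (Fintype.piFinset fun _ : Fin s => A)).filter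
      fun w : (Fin s → ℤ) × (Fin s → ℤ) =>
      ∀ j ∈ Icc (1 : ℕ) k, (∑ i, w.1 i ^ j : ℤ) = ∑ i, w.2 i ^ j + v j) ≤ JJ s k A) ∧
  (∀ (s k : ℕ) (A : Finset ℤ) (v : ℕ → ℤ),
    #(((Fintype.piFinset fun _ : Fin s => A) : Finset (Fin s → ℤ)).filter fun y : Fin s → ℤ =>
      ∀ j ∈ Icc (1 : ℕ) k, (∑ i, y i ^ j : ℤ) = v j) ^ 2 ≤ JJ s k A) ∧
  (∀ (k : ℕ) (A : Finset ℤ), JJ k k A ≤ k.factorial * #A ^ k) ∧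
  ∀ (s k : ℕ) (A : Finset ℤ), JJ s k A ≤ #A ^ (2 * s)

/-- **HOL** (medium, long).  Hölder.  Let `R` be larger than all absolute values of both sides.  The number `Q4` is
`R^(-k) ∑_{α ∈ (ZMod R)^k} |F(α)|² |f(α)|^(2s)` with `F(α) = ∑_{m ∈ M} e(∑_j α_j ∑_i m_i^j / R)`,
`f(α) = ∑_{x ∈ A} e(∑_j α_j x^j / R)` (orthogonality of `ZMod.stdAddChar`, or `∑_{a<R} ee(a u/R)`); `f = ∑_a f_a` over
the classes mod `p` and `|f|^(2s) ≤ p^(2s-1) ∑_a |f_a|^(2s)` (power mean inequality). -/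
def HOL_stmt : Prop := ∀ (s k p : ℕ) (M : Finset (Fin k → ℤ)) (A : Finset ℤ), 1 ≤ s → 1 ≤ p →
  Q4 s k M A ≤ p ^ (2 * s - 1) * ∑ a ∈ range p, Q4 s k M (A.filter fun x => x % (p : ℤ) = (a : ℤ))

/-- **STE** (medium, long).  From HOL, LIN, JB.  For `a < p` and `x_i ≡ y_i ≡ a mod p`: subtract `a` from all variables
(binomial theorem, both sides have `k + s` variables), `x - a = p u`, `y - a = p v` with `0 ≤ u, v ≤ X/p`: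
`∑(m-a)^j + p^j ∑u^j = ∑(n-a)^j + p^j ∑v^j`.  So `p^j ∣ ∑(m-a)^j - ∑(n-a)^j`: for each of the `≤ X^k` tuples `n` there are
at most `k! p^(k(k-1)/2)` tuples `m` (LIN, `X ≤ p^k`), and for each `(m,n)` at most `JV s k (X/p+1)` pairs `(u,v)`
(JB (3), (2)).  Sum over the `p` classes. -/
def STE_stmt : Prop := ∀ s k p X : ℕ, 1 ≤ s → p.Prime → k < p → X ≤ p ^ k →
  Q4 s k (DM k p X) (Ioc 0 (X : ℤ)) ≤
    p ^ (2 * s) * X ^ k * (k.factorial * p ^ (k * (k - 1) / 2)) * JV s k (X / p + 1)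

/-- **REC** (medium, long).  From STE, JB.  Let `Y` be least with `X ≤ Y^k` (`Y ≤ 2 X^(1/k)`, `Y ≥ k`).  Primes
`Y < p_1 < p_2 < ...`, `p_1 ≤ 2Y`, `p_(i+1) ≤ 2 p_i` (Bertrand, `Nat.exists_prime_lt_and_le_two_mul`), `r = k²(k-1)` of them;
`p_i ≤ 2^r Y`.  Let `J = JV (s+k) k X`.  (a) Solutions `(x,y)` where both `x` and `y` have at least `k` distinct values:
choose `k` positions in `x` and in `y` with distinct values (`C(s+k,k)²` choices); the product `Δ` of all differences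
satisfies `0 < |Δ| < X^(k(k-1)) ≤ ∏ p_i`, so some `p_i` does not divide `Δ` and the solution is counted by
`Q4 s k (DM k p_i X) (Ioc 0 X)`; STE.  (b) The other solutions: `2 · X^(k-1) k^(s+k) · √J` (JB (4): at most `√J` tuples `y` for
every `x`; the `x` with at most `k-1` distinct values: choose the values and the map).  If (b) is `≤ J/2` then
`J ≤ 2 (a)`, otherwise `J ≤ 16 k^(2(s+k)) X^(2k-2)`.  Take for `p` the `p_i` with the largest bound of STE. -/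
def REC_stmt : Prop := ∀ s k X : ℕ, 1 ≤ s → 2 ≤ k → 2 ^ (2 * k ^ 3) ≤ X →
  ∃ p : ℕ, p.Prime ∧ k < p ∧ X ≤ p ^ k ∧ p ^ k ≤ 2 ^ (k ^ 4) * X ∧
    JV (s + k) k X ≤ 2 * ((s + k).choose k) ^ 2 * k ^ 3 *
        (p ^ (2 * s) * X ^ k * (k.factorial * p ^ (k * (k - 1) / 2)) * JV s k (X / p + 1)) +
      16 * k ^ (2 * (s + k)) * X ^ (2 * k - 2)

/-- **VMV** (medium; Vinogradov's mean value theorem).  From REC, JB, induction on `r`; `e_r` = exponent of `X`.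
`r = 1`: JB (5), `e_1 = k`.  Step: `X ≤ 2^(2k³)`: trivial bound `X^(2k(r+1))`, `X^(k(k+1)/2) ≤ 2^(2 k^5)`.  Otherwise REC with
`s = k r`: `p ≤ 2^(k³) X^(1/k) ≤ X`, `X/p + 1 ≤ 2X/p ≤ 2 X^(1-1/k)`, `e_r ≥ 0`,
`2r + (k-1)/2 + k + (1-1/k) e_r = e_(r+1)`, `e_(r+1) ≥ 2k - 2`. -/
def VMV_stmt : Prop := ∀ k r X : ℕ, 2 ≤ k → 1 ≤ r → 1 ≤ X →
  (JV (k * r) k X : ℝ) ≤ 2 ^ (100 * k ^ 5 * r ^ 2) *
    (X : ℝ) ^ (2 * k * r - k * (k + 1) / 2 + k ^ 2 / 2 * (1 - 1 / (k : ℝ)) ^ r : ℝ)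

/-! ## B. Exponential sums -/

/-- **DH** (long).  Double Hölder.  `|W| ≤ ∑_u |∑_v ee(∑ α_j u^j v^j)|`, `|W|^(2s) ≤ Y^(2s-1) ∑_u |∑_v|^(2s)
= Y^(2s-1) ∑_μ r(μ) S(μ)` where `r(μ)` is the number of `(v,w) ∈ ([1,Y]^s)²` with `∑v^j - ∑w^j = μ_j` (`1 ≤ j ≤ k`; `|μ_j| ≤ sY^j`)
and `S(μ) = ∑_u ee(∑ α_j μ_j u^j)`.  Hölder: `(∑ r|S|)^(2s) ≤ (∑ r)^(2s-2) (∑ r²) ∑_μ |S(μ)|^(2s)`, `∑ r = Y^(2s)`,
`∑ r² = JV (2s) k Y`.  Finally `∑_{μ ∈ box} |S(μ)|^(2s) = ∑_ν r(ν) ∏_j ∑_{|μ_j| ≤ sY^j} ee(α_j μ_j ν_j) ≤ JV s k Y · ∑_{ν ∈ box}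
∏_j gb(2sY^j+1)(α_j ν_j)` (`r(ν) ≤ JV s k Y`; geometric sum `geom_bound`). -/
def DH_stmt : Prop := ∀ (s k Y : ℕ) (α : ℕ → ℝ), 1 ≤ s → 1 ≤ Y →
  ‖∑ u ∈ Ioc 0 Y, ∑ v ∈ Ioc 0 Y, ee (∑ j ∈ Icc 1 k, α j * ((u : ℝ) * v) ^ j)‖ ^ (4 * s ^ 2) ≤
    (Y : ℝ) ^ (8 * s ^ 2 - 6 * s) * JV (2 * s) k Y * JV s k Y *
      ∏ j ∈ Icc 1 k, ∑ μ ∈ Icc (-((s * Y ^ j : ℕ) : ℤ)) ((s * Y ^ j : ℕ) : ℤ),
        gb ((2 * s * Y ^ j + 1 : ℕ) : ℝ) (α j * μ)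

/-- **TJ** (short).  `|αμ| ≤ 1/2`, so `‖αμ‖ = |αμ|`; `μ = 0` gives `2M+1`; `∑_{μ ≤ M} 1/μ ≤ 1 + log M`.  Second: `gb X β ≤ X`. -/
def TJ_stmt : Prop := (∀ (M : ℕ) (α : ℝ), 1 ≤ M → α ≠ 0 → |α| * M ≤ 1 / 2 →
    ∑ μ ∈ Icc (-(M : ℤ)) (M : ℤ), gb ((2 * M + 1 : ℕ) : ℝ) (α * μ) ≤
      2 * M + 1 + 1 / |α| * (1 + Real.log M)) ∧
  ∀ (M : ℕ) (α : ℝ), ∑ μ ∈ Icc (-(M : ℤ)) (M : ℤ), gb ((2 * M + 1 : ℕ) : ℝ) (α * μ) ≤ (2 * M + 1) ^ 2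

/-- **LOC** (long).  From VMV, DH, TJ.  We may assume `log N ≥ C' l^9` (otherwise trivial for `C` large).  `λ = log|t|/log N ∈
[1/2, l]`, `k = 5l`, `r = 2k²`, `s = kr = 2k³`.  `log(1+w) = ∑_{j≤k} (-1)^(j-1) w^j/j + O(w^(k+1))`, `w = uv/x ≤ N^(-1/5)`, so
`nit t (x+uv) = nit t x · ee(∑_{j≤k} α_j (uv)^j) + O(N^(-1/5))`, `α_j = (-1)^(j-1) t/(2πj x^j)` (`|t| w^(k+1) ≤ N^(l-(5l+1)/5)`).
Choose an integer `j₀` with `5λ/3 + 3/10 ≤ j₀ ≤ 5λ - 3/10` (interval of length `≥ 1`), `M = sY^(j₀)`: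
`|α_(j₀)| M ≤ s N^(λ-3j₀/5) ≤ s N^(-0.18) ≤ 1/2`, `1/(|α_(j₀)| M²) ≤ 16^k k N^(j₀/5-λ) ≤ 16^k k N^(-0.06)`, `1/M ≤ 2 N^(-2/5)`.  TJ for
`j₀`, trivial bound `(2sY^j+1)² ≤ (3sY^j)²` for the others, `∏_j Y^(2j) = Y^(k(k+1))`.  VMV for `r` and `2r` (`2s = k·2r`):
`(k²/2)(1-1/k)^r ≤ (k²/2) e^(-2k) ≤ 0.001`.  Total: `|W|^(4s²) ≤ Y^(8s²) 2^(2000k^9) (3s)^(2k) 16^k k ·4 (1+log(sY^k)) N^(0.002-0.06)`,
`4s² = 16k^6`. -/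
def LOC_stmt : Prop := ∃ C : ℕ, 0 < C ∧ ∀ (l N : ℕ) (t x : ℝ), 1 ≤ l → 1 ≤ N →
  √(N : ℝ) ≤ |t| → |t| ≤ (N : ℝ) ^ l → (N : ℝ) ≤ x → x ≤ 4 * N →
  ‖∑ u ∈ Ioc 0 ⌊(N : ℝ) ^ (2 / 5 : ℝ)⌋₊, ∑ v ∈ Ioc 0 ⌊(N : ℝ) ^ (2 / 5 : ℝ)⌋₊, nit t (x + (u : ℝ) * v)‖ ≤
    (N : ℝ) ^ (4 / 5 : ℝ) * (Real.exp (C * (l : ℝ) ^ 3) * (N : ℝ) ^ (-(1 / (C * (l : ℝ) ^ 6))))

/-- **DYS** (medium).  From LOC.  `|∑_{N<n≤N'} f(n) - ∑_{N<n≤N'} f(n+h)| ≤ 2h` for `|f| ≤ 1`; average over `h = uv`, `u, v ≤ Y`;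
`Y ≥ N^(2/5)/2`. -/
def DYS_stmt : Prop := ∃ C : ℕ, 0 < C ∧ ∀ (l N N' : ℕ) (t θ : ℝ), 1 ≤ l → 1 ≤ N → N ≤ N' → N' ≤ 2 * N →
  √(N : ℝ) ≤ |t| → |t| ≤ (N : ℝ) ^ l → 0 ≤ θ → θ ≤ 1 →
  ‖∑ n ∈ Ioc N N', nit t (n + θ)‖ ≤
    (N : ℝ) * (Real.exp (C * (l : ℝ) ^ 3) * (N : ℝ) ^ (-(1 / (C * (l : ℝ) ^ 6))))

/-- **EM** (short, medium).  Comparison with `∫_1^U (v+θ)^(it) dv = [(v+θ)^(1+it)/(1+it)]`, error `≤ 1 + ∫_1^U |t|/(v+θ) dv`. -/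
def EM_stmt : Prop := ∀ (t u θ : ℝ), t ≠ 0 → 1 ≤ u → 0 ≤ θ → θ ≤ 1 →
  ‖∑ n ∈ Ioc 0 ⌊u⌋₊, nit t (n + θ)‖ ≤ 4 * u / |t| + 1 + |t| * Real.log u

/-- **ES** (medium).  From DYS, EM.  If `u ≥ t²`: EM.  If `u < t²`: trivial for `n ≤ u/(log x)^(A+1)`, dyadic blocks above:
`√N ≤ |t|`, `log N ≥ dl x/3`, `|t| ≤ N^l` with `l = ⌈3K log x/dl x⌉ ≤ 4K (log x)^(1/20)`; DYS gives the factor
`exp(C l³ - log N/(C l^6))`, `l³ ≪ (log x)^(3/20)`, `log N/l^6 ≫ (log x)^(13/20)`. -/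
def ES_stmt : Prop := ∀ A K : ℕ, ∃ (B₁ : ℕ) (x₀ : ℝ), ∀ x : ℝ, x₀ ≤ x → ∀ t u θ : ℝ,
  Real.log x ^ B₁ ≤ |t| → |t| ≤ x ^ K → Real.exp (dl x / 2) ≤ u → 0 ≤ θ → θ ≤ 1 →
  ‖∑ n ∈ Ioc 0 ⌊u⌋₊, nit t (n + θ)‖ ≤ u / Real.log x ^ A

/-- **CHS** (medium).  From ES: `n = q m + a`, `1 ≤ a ≤ q`, `nit t (qm+a) = nit t q · nit t (m + a/q)`; the terms `m = 0` are at
most `q`; `(u-a)/q ≥ exp(dl x/2)`. -/
def CHS_stmt : Prop := ∀ A B K : ℕ, ∃ (B₁ : ℕ) (x₀ : ℝ), ∀ x : ℝ, x₀ ≤ x → ∀ q : ℕ, 1 ≤ q →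
  (q : ℝ) ≤ Real.log x ^ B → ∀ χ : DirichletCharacter ℂ q, ∀ t u : ℝ,
  Real.log x ^ B₁ ≤ |t| → |t| ≤ x ^ K → Real.exp (dl x) ≤ u →
  ‖∑ n ∈ Ioc 0 ⌊u⌋₊, χ n * nit t n‖ ≤ u / Real.log x ^ A

/-! ## C. Rough numbers, zero-free region, primes -/

/-- **RGH** (medium).  From CHS.  `y = exp(dl x)`, `P` = product of the primes `≤ y`, `S(v) = ∑_{m ≤ v} χ(m) nit t m`:
the sum is `∑_{d ∣ P} μ(d) χ(d) nit t d S(u/d)`.  `d ≤ u/y`: CHS and `∑_{d ∣ P} 1/d = ∏_{p≤y} (1+1/p) ≤ C log y`.  `d > u/y`: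
`|S| ≤ u/d` and `∑_{d ∣ P, d > u/y} 1/d ≤ ∑_{d ∣ P} (1/d)(dy/u)^(1/log y) ≤ e · e^(-log u/log y) ∏_{p ≤ y}(1 + e/p)
≤ C (log x)³ e^(-log u/log y)` (Mertens: `∑_{p≤y} 1/p ≤ log log y + C`, e.g. Pool/Agent/Lib/PrimeSums.lean). -/
def RGH_stmt : Prop := ∀ A B K : ℕ, ∃ (B₁ : ℕ) (C x₀ : ℝ), 0 < C ∧ ∀ x : ℝ, x₀ ≤ x → ∀ q : ℕ, 1 ≤ q →
  (q : ℝ) ≤ Real.log x ^ B → ∀ χ : DirichletCharacter ℂ q, ∀ t u : ℝ,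
  Real.log x ^ B₁ ≤ |t| → |t| ≤ x ^ K → 1 ≤ u → ∀ [DecidablePred (rgh (Real.exp (dl x)))],
  ‖∑ n ∈ Ioc 0 ⌊u⌋₊ with rgh (Real.exp (dl x)) n, χ n * nit t n‖ ≤
    C * u * (Real.log x ^ 3 * Real.exp (-(Real.log u / dl x)) + 1 / Real.log x ^ A)

/-- **RC** (medium, short).  Number of rough numbers: for `u < y` only `n = 1`; for `u ≥ y` an upper bound sieve with the
primes `≤ u^c` (`rough_short` in Pool/Agent/helper23/Slope/RA.lean, or SieveInterval.lean in Pool/Agent/Lib). -/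
def RC_stmt : Prop := ∃ C : ℝ, 0 < C ∧ ∀ y u : ℝ, 2 ≤ y → 1 ≤ u → ∀ [DecidablePred (rgh y)],
  (#((Ioc 0 ⌊u⌋₊).filter fun n => rgh y n) : ℝ) ≤ 1 + C * u / Real.log y

/-- **LD** (medium, long).  From RGH, RC.  `D = dl x = log y`, `s = σ + iτ`, `R(u)` = sum of `χ(n) n^(-iτ)` over the rough
`1 < n ≤ u`.  Partial summation: `|RD| ≤ 1 + C_j ∫_y^∞ |R(u)| (log u)^j u^(-σ-1) du`.  `|R(u)| ≤ C u/D` (RC; used for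
`u ≤ y^S`, `S = 4 log log x`: contribution `C D^j S^(j+1)`); for `u > y^S` RGH with `A = J + 1` (and the term `n = 1`):
`∫_{SD}^∞ (log x)³ e^(-v/D) v^j dv ≤ C (log x)³ D^(j+1) e^(-S) S^j ≤ C D^j S^j`, and
`(log x)^(-J-1) ∫ v^j e^(-v/log x) dv ≤ j!`. -/
def LD_stmt : Prop := ∀ J B K : ℕ, ∃ (B₁ : ℕ) (C x₀ : ℝ), 0 < C ∧ ∀ x : ℝ, x₀ ≤ x → ∀ q : ℕ, 1 ≤ q →
  (q : ℝ) ≤ Real.log x ^ B → ∀ χ : DirichletCharacter ℂ q, ∀ s : ℂ, Rng B₁ K x s → ∀ j ≤ J,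
  ‖RD χ (Real.exp (dl x)) j s‖ ≤ C * dl x ^ j * ll2 x ^ (j + 1)

/-- **LB** (medium, long).  From LD (with `K + 1`, `J = 1`), RC.  `ℓ = log log x`, `D = dl x`.  3-4-1 for the Euler products over
`p > y`: `|ζ_y(σ)|³ |L_y(σ+it,χ)|⁴ |L_y(σ+2it,χ²)| ≥ 1` (Mathlib's `DirichletCharacter.norm_LSeries_product_ge_one` is for the full
products; copy its proof: `3 + 4 cos θ + cos 2θ ≥ 0` applied to `-log(1-z)`, `z = χ(p)p^(-σ-it)`).  `ζ_y(σ) ≤ 1 + C/((σ-1)D)` (RC,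
partial summation), `|L_y(σ+2it,χ²)| ≤ C ℓ`.  So `|L_y(σ+it)| ≥ c min(1,(σ-1)D)^(3/4) ℓ^(-1/4)`; with `σ₀ = 1 + c₁ ℓ^(-9)/D` and
`|L_y'| ≤ C D ℓ²` (`-L_y' = RD χ y 1`): for `σ < σ₀`, `|L_y(σ)| ≥ |L_y(σ₀)| - (σ₀-σ) C D ℓ² ≥ c ℓ^(-7)` if `c₁` is small. -/
def LB_stmt : Prop := ∀ B K : ℕ, ∃ (B₁ : ℕ) (c x₀ : ℝ), 0 < c ∧ ∀ x : ℝ, x₀ ≤ x → ∀ q : ℕ, 1 ≤ q →
  (q : ℝ) ≤ Real.log x ^ B → ∀ χ : DirichletCharacter ℂ q, ∀ s : ℂ, Rng B₁ K x s →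
  c / ll2 x ^ 7 ≤ ‖RD χ (Real.exp (dl x)) 0 s‖

/-- **LG** (medium).  From LD, LB.  For `Re s > 1`: `RD_(j+1) = ∑_{i≤j} C(j,i) RG_i RD_(j-i)` (`log · f = (Λ f) * f` for the
completely multiplicative `f = χ 1_rough`; see `DD_succ` in helper35/MT/AN3.lean or helper17/TG/SW1.lean), and
`∑_{i≤j} C(j,i) RM_i RD_(j-i) = 0` for `j ≥ 1`, `= 1` for `j = 0`.  Induction on `j`. -/
def LG_stmt : Prop := ∀ J B K : ℕ, ∃ (B₁ E : ℕ) (x₀ : ℝ), ∀ x : ℝ, x₀ ≤ x → ∀ q : ℕ, 1 ≤ q →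
  (q : ℝ) ≤ Real.log x ^ B → ∀ χ : DirichletCharacter ℂ q, ∀ s : ℂ, Rng B₁ K x s → ∀ j ≤ J,
  ‖RG χ (Real.exp (dl x)) j s‖ ≤ dl x ^ (j + 1) * ll2 x ^ E ∧
  ‖RM χ (Real.exp (dl x)) j s‖ ≤ dl x ^ j * ll2 x ^ E

/-- **LF** (medium).  From LG.  `GG - RG`: the prime powers of primes `p ≤ y`:
`∑_{p≤y} ∑_k log p (k log p)^j p^(-k) ≤ C_j (log y)^(j+1)`.  `MM_j = ∑_{i≤j} C(j,i) RM_i P_(j-i)`, `P_i = ∑_{d ∣ P(y)} μ(d) χ(d)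
(log d)^i d^(-s)`, `|P_i| ≤ i! (log y)^i ∑_{d ∣ P(y)} d^(-1+1/log y) ≤ C_i (log y)^(i+3)` (as in RGH). -/
def LF_stmt : Prop := ∀ J B K : ℕ, ∃ (B₁ : ℕ) (x₀ : ℝ), ∀ x : ℝ, x₀ ≤ x → ∀ q : ℕ, 1 ≤ q →
  (q : ℝ) ≤ Real.log x ^ B → ∀ χ : DirichletCharacter ℂ q, ∀ s : ℂ, Rng B₁ K x s → ∀ j ≤ J,
  ‖GG χ j s‖ ≤ dl x ^ (j + 2) ∧ ‖MM χ j s‖ ≤ dl x ^ (j + 4)

/-- **FS** (medium).  The proof of `fourier_sum` in Pool/Agent/helper74/TG/SW7.lean with `K` arbitrary: the smoothed sum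
`∑ a_n (log n)^K (1 - n/x)` is `O(x (U + V/R))`, `U = (log x)^(K-m)` the bound for `|t| ≤ R = (log x)^m`, `V ≤ (log x)^(K+3)` the
trivial bound; `m` large in terms of `A`; then remove the smoothing and the factor `(log n)^K` as there. -/
def FS_stmt : Prop := ∀ A : ℕ, ∃ m : ℕ, ∀ K : ℕ, ∃ C x₀ : ℝ, 0 < C ∧ ∀ x : ℝ, x₀ ≤ x → ∀ a : ℕ → ℂ,
  (∀ n, ‖a n‖ ≤ 1 + Real.log n) →
  (∀ t : ℝ, |t| ≤ Real.log x ^ m →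
    ‖LSeries (fun n => a n * (Real.log n : ℂ) ^ K) (1 + 1 / (Real.log x : ℂ) + t * Complex.I)‖ ≤
      Real.log x ^ K / Real.log x ^ m) →
  ‖∑ n ∈ Ioc 0 ⌊x⌋₊, a n‖ ≤ C * x / Real.log x ^ A

/-- **VP** (medium; the result of part V).  From LF, FS: `a n = Λ(n) χ(n) n^(it)` (resp. `μ`), `LSeries (a log^K)(σ + iu) = GG χ K
(σ + i(u-t))`; `|u| ≤ (log x)^m` is negligible against `|t| ≥ (log x)^B₁` (`B₁` larger than that of LF and than `m`);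
`dl x ^ (K+4) = (log x)^(19(K+4)/20) ≤ (log x)^(K-m)` for `K = 20(m+4)`. -/
def VP_stmt : Prop := ∀ A B K : ℕ, ∃ (B₁ : ℕ) (x₀ : ℝ), ∀ x : ℝ, x₀ ≤ x → ∀ q : ℕ, 1 ≤ q →
  (q : ℝ) ≤ Real.log x ^ B → ∀ χ : DirichletCharacter ℂ q, ∀ t : ℝ,
  Real.log x ^ B₁ ≤ |t| → |t| ≤ x ^ K →
  ‖∑ n ∈ Ioc 0 ⌊x⌋₊, (vonMangoldt n : ℂ) * χ n * nit t n‖ ≤ x / Real.log x ^ A ∧
  ‖∑ n ∈ Ioc 0 ⌊x⌋₊, ((moebius n : ℤ) : ℂ) * χ n * nit t n‖ ≤ x / Real.log x ^ A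

end Pool.Agent.CH
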