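import Pool.Agent.helper17.CH.DefsW

/-!
# Project CH (MP_5628fe_nt), part W: primes and characters of small conductor in almost all windows

Page: /team-store/MP_5628fe_CH_page.md.

RULES.  File `Pool/Agent/<seat>/CH/XX.lean`, `import Pool.Agent.helper17.CH.SpecW`, `namespace Pool.Agent.CH`,
`theorem XX (h1 : YY_stmt) ... : XX_stmt` (any other statement of this file or of SpecV may be a hypothesis, no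
circles), auxiliary lemmas prefixed `XX_` and private where possible.  Never change this file.  If a statement is
wrong tell helper17 at once.  `de ε N = N^(-1-ε)`, `dB B N = (log N)^(-B)`.
-/

set_option autoImplicit false

namespace Pool.Agent.CH

open Finset ArithmeticFunction MeasureTheory
open Pool.Agent.helper85.BVP (trunc beta Mr Zr)
open GD (kp ks)

/-! ## Smoothing -/

/-- **CCB** (medium).  Basic facts.  (1) `n³ < j ≤ (n+1)³` iff `3 log n < log j ≤ 3 log(n+1)`; disjoint windows.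
(2) `|CC| ≤ 1`, support, `∫ |CC|² ≤ 3 log 2`, `∫ |CC| ≤ 3 log 2`, integrability.  (3) `∫ ph δ = 1` (Mathlib's Gaussian
integral), `|Ph| ≤ 1`.  (4) For `v` at distance `≥ log 2` from the support of `CC`: `|Ph| ≤ ∫_{|u| ≥ log 2} ph δ
≤ exp(-(log 2)²/(4δ²)) · √2`, `(log 2)²/4 ≥ 1/9`. -/
def CCB_stmt : Prop :=
  (∀ (N : ℕ) (c : ℕ → ℝ) (j : ℕ), 1 ≤ j → cc N c j = CC N c (Real.log j)) ∧
  (∀ (N : ℕ) (c : ℕ → ℝ), (∀ n, |c n| ≤ 1) → (∀ v, |CC N c v| ≤ 1) ∧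
    (∀ v, CC N c v ≠ 0 → 3 * Real.log N < v ∧ v ≤ 3 * Real.log (2 * N)) ∧ Integrable (CC N c)) ∧
  (∀ (N : ℕ) (c : ℕ → ℝ) (δ v : ℝ), 0 < δ → (∀ n, |c n| ≤ 1) → |Ph N c δ v| ≤ 1) ∧
  (∀ (N : ℕ) (c : ℕ → ℝ) (δ v : ℝ), 1 ≤ N → 0 < δ → (∀ n, |c n| ≤ 1) →
    (v ≤ 3 * Real.log N - Real.log 2 ∨ 3 * Real.log (2 * N) + Real.log 2 ≤ v) →
    |Ph N c δ v| ≤ 2 * Real.exp (-(1 / (9 * δ ^ 2)))) ∧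
  (∀ (N : ℕ) (c : ℕ → ℝ) (j : ℕ), (∀ n, |c n| ≤ 1) → |cc N c j| ≤ 1) ∧
  ∀ (N : ℕ) (c : ℕ → ℝ) (δ v : ℝ), 0 < δ → (∀ n, 0 ≤ c n) → (∀ n, |c n| ≤ 1) → 0 ≤ Ph N c δ v

/-- **HP** (medium, long).  `∑_w f_w gW(w) = ∫ CC(u) G(u) du`, `G(u) = ∑_w f_w (ph δ - ph δ')(log w - u)`; Cauchy-Schwarz,
`∫ |CC|² ≤ 3 log 2`, and `∫ |G|² = (1/2π) ∫ |F(t)|² mu2(t)² dt`, `F(t) = ∑ f_w w^(it)` (Plancherel; or expand the square and use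
`∫ ph a (x-u) ph b (y-u) du = (1/2π) ∫ e^(it(x-y)) e^(-(a²+b²)t²/2) dt`, Fourier transform of the Gaussian). -/
def HP_stmt : Prop := ∀ (N : ℕ) (c : ℕ → ℝ) (δ δ' : ℝ) (T : Finset (ℕ × ℕ)) (f : ℕ × ℕ → ℂ), 1 ≤ N →
  (∀ n, |c n| ≤ 1) → 0 < δ → 0 < δ' → (∀ w ∈ T, 0 < w.1 * w.2) →
  ‖∑ w ∈ T, f w * gW N c δ δ' (w.1 * w.2)‖ ≤
    √(∫ t : ℝ, ‖∑ w ∈ T, f w * nit t ((w.1 * w.2 : ℕ) : ℝ)‖ ^ 2 * mu2 δ δ' t ^ 2)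

/-- **HPB** (medium).  From HP with `T = Ico M 2M ×ˢ Ico K 2K`, `F = DPb M a · DPb K b`, `|F| ≤ N³ (log N)^A'`.
`|t| ≤ (log N)^B₁`: `0 ≤ mu2 ≤ δ'² t²/2`, contribution `≤ (log N)^(5B₁ - 4B₂ + 2A') N^6`.  `|t| > N^(1+2ε)`:
`mu2² ≤ 4 exp(-δ² t²)`, `δ|t| ≥ N^ε`.  The middle range: `|mu2| ≤ 1`. -/
def HPB_stmt : Prop := ∀ (ε : ℝ) (A A' B₁ : ℕ), 0 < ε → ∃ B₀ : ℕ, ∀ B₂ : ℕ, B₀ ≤ B₂ → ∃ N₀ : ℕ,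
  ∀ N : ℕ, N₀ ≤ N → ∀ c : ℕ → ℝ, (∀ n, |c n| ≤ 1) → ∀ (M K : ℕ) (a b : ℕ → ℂ), 1 ≤ M → 1 ≤ K →
  (∑ m ∈ Ico M (2 * M), ‖a m‖) * ∑ k ∈ Ico K (2 * K), ‖b k‖ ≤ (N : ℝ) ^ 3 * Real.log N ^ A' →
  ∫ t in Tset ε B₁ N, ‖DPb M a t‖ ^ 2 * ‖DPb K b t‖ ^ 2 ≤ (N : ℝ) ^ 6 / Real.log N ^ (2 * A + 2) →
  ‖BLb M K a b (gW N c (de ε N) (dB B₂ N))‖ ≤ (N : ℝ) ^ 3 / Real.log N ^ A

/-- **BD** (medium).  From CCB.  If the distance of `log j` to all points `3 log n` is `≥ r = N^(ε/4) δ` then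
`|CC(log j) - Ph(log j)| ≤ 2 ∫_{|u| ≥ r} ph δ ≤ 4 exp(-N^(ε/2)/4)`.  The `j ≤ 64N³` with `|log j - 3 log n| < r` for some
`N ≤ n ≤ 2N`: at most `C N (N³ r + 1) ≤ C N^(3-3ε/4)`, each contributes `≤ 2 F₀`. -/
def BD_stmt : Prop := ∀ ε : ℝ, 0 < ε → ε ≤ 1 → ∃ N₀ : ℕ, ∀ N : ℕ, N₀ ≤ N → ∀ c : ℕ → ℝ, (∀ n, |c n| ≤ 1) →
  ∀ (F₀ : ℝ) (f : ℕ → ℂ), (∀ j, ‖f j‖ ≤ F₀) →
  ‖∑ j ∈ Ioc 0 (64 * N ^ 3), f j * ((cc N c j - Ph N c (de ε N) (Real.log j) : ℝ) : ℂ)‖ ≤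
    F₀ * (N : ℝ) ^ (3 - ε / 2)

/-- **LPS** (medium).  Partial summation: the total variation of `u ↦ Ph N c δ (log u)` is at most
`∫ |CC| · ∫ |(ph δ)'| ≤ 3 log 2 · 2/(δ√(2π)) ≤ 2/δ`, `|Ph| ≤ 1`. -/
def LPS_stmt : Prop := ∀ (N X : ℕ) (c : ℕ → ℝ) (δ E : ℝ) (f : ℕ → ℂ), 1 ≤ N → (∀ n, |c n| ≤ 1) →
  0 < δ → δ ≤ 1 → (∀ u ≤ X, ‖∑ j ∈ Ioc 0 u, f j‖ ≤ E) →
  ‖∑ j ∈ Ioc 0 X, f j * ((Ph N c δ (Real.log j) : ℝ) : ℂ)‖ ≤ 4 * E / δ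

/-! ## Dirichlet polynomials -/

/-- **MVT** (medium; mean value theorem, a factor `log` is lost).  Library: Pool/Agent/helper44/DM/MVI.lean,
helper45/ZD/MVK.lean and the theorems they use.  Direct proof: majorise `1_[-T,T]` by `(4/π) sin²(t/2T)/(t/2T)²`-type or a Gaussian,
expand; only pairs with `|log(k/l)| ≤ C/T` resp. weight `1/(T log²(k/l))` survive, `|log(k/l)| ≥ |k-l|/(2K)`,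
`|b_k b_l| ≤ (|b_k|² + |b_l|²)/2`. -/
def MVT_stmt : Prop := ∃ C : ℝ, 0 < C ∧ ∀ (T : ℝ) (K : ℕ) (b : ℕ → ℂ), 1 ≤ T → 1 ≤ K →
  ∫ t in (-T)..T, ‖DPb K b t‖ ^ 2 ≤ C * (T + K) * (1 + Real.log K) * ∑ k ∈ Ico K (2 * K), ‖b k‖ ^ 2

/-- **SUP** (medium).  From VP (with `x` between `N^(ε/2)` and `128 N³`; `log N` and `log x` are comparable; exponents of VP:
`A + 2`, `K` large).  (a) difference of two partial sums.  (b) `beta U k = ∑_{d ∣ k, d > U} μ(d)`: the sum is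
`∑_{e ≤ 2K/U} χ(e) e^(it) ∑_{d > U, K ≤ de < 2K} μ(d) χ(d) d^(it)`, the inner sums have length `≥ U` or are empty, each is
`≤ (K/e)/(log N)^(A+2)`.  (c) primes: (a) (prime powers `≤ C√M log M`, remove `log p` by partial summation;
the interval `[M₁, M₂)` is arbitrary inside `[M, 2M]`). -/
def SUP_stmt : Prop := ∀ (ε : ℝ) (A B : ℕ), 0 < ε → ε ≤ 1 → ∃ B₁ N₀ : ℕ, ∀ N : ℕ, N₀ ≤ N → ∀ q : ℕ, 1 ≤ q →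
  (q : ℝ) ≤ Real.log N ^ B → ∀ χ : DirichletCharacter ℂ q, ∀ t : ℝ,
  Real.log N ^ B₁ ≤ |t| → |t| ≤ (N : ℝ) ^ 2 →
  (∀ M U : ℕ, (N : ℝ) ^ ε ≤ M → M ≤ 64 * N ^ 3 →
    ‖DPb M (fun m => if U < m then (vonMangoldt m : ℂ) * χ m else 0) t‖ ≤ M / Real.log N ^ A) ∧
  (∀ K U : ℕ, (N : ℝ) ^ ε ≤ U → U ≤ 2 * K → K ≤ 64 * N ^ 3 →
    ‖DPb K (fun k => ((beta U k : ℝ) : ℂ) * χ k) t‖ ≤ K / Real.log N ^ A) ∧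
  (∀ M M₁ M₂ : ℕ, (N : ℝ) ^ ε ≤ M → M ≤ 64 * N ^ 3 → M ≤ M₁ → M₂ ≤ 2 * M →
    ‖∑ p ∈ Ico M₁ M₂ with p.Prime, χ p * nit t p‖ ≤ M / Real.log N ^ A)

/-- **TII** (medium).  From SUP, MVT.  If `M ≥ K` then `M ≥ N^(3/2)/8 ≥ N^(1+2ε)`: sup of `DPb K` (SUP (b), with `ε/2`), MVT for
`DPb M`: `K² (log N)^(-2A') · C (N^(1+2ε) + M) log · M log²`.  If `K > M`: sup of `DPb M` (SUP (a)), MVT for `DPb K` with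
`∑ |beta|² ≤ ∑ τ(k)² ≤ C K (log N)³`-type (`sum_tau_sq_le` in helper85/BVP/Tau). -/
def TII_stmt : Prop := ∀ (ε : ℝ) (A B : ℕ), 0 < ε → ε ≤ 1 / 20 → ∃ B₁ N₀ : ℕ, ∀ N : ℕ, N₀ ≤ N → ∀ q : ℕ, 1 ≤ q →
  (q : ℝ) ≤ Real.log N ^ B → ∀ χ : DirichletCharacter ℂ q, ∀ M K U : ℕ,
  (N : ℝ) ^ ε ≤ U → U ≤ 2 * M → U ≤ 2 * K → N ^ 3 ≤ 64 * (M * K) → M * K ≤ 64 * N ^ 3 →
  ∫ t in Tset ε B₁ N, ‖DPb M (fun m => if U < m then (vonMangoldt m : ℂ) * χ m else 0) t‖ ^ 2 *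
      ‖DPb K (fun k => ((beta U k : ℝ) : ℂ) * χ k) t‖ ^ 2 ≤ (N : ℝ) ^ 6 / Real.log N ^ A

/-- **TI** (medium).  `k = q m + r`, EM of SpecV: `|DPb K (χ log^h)| ≤ C q (K/|t| + 1 + |t| log N) log N ≤ C' q K (log N)²/|t|` for
`|t| ≤ N^(1+2ε)`, `K ≥ N^(14/5)/64`; `|DPb D a| ≤ D (log N)²`; `∫_{|t| ≥ T₀} dt/t² = 2/T₀`. -/
def TI_stmt : Prop := ∀ (ε : ℝ) (A B : ℕ), 0 < ε → ε ≤ 1 / 20 → ∃ B₁ N₀ : ℕ, ∀ N : ℕ, N₀ ≤ N → ∀ q : ℕ, 1 ≤ q →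
  (q : ℝ) ≤ Real.log N ^ B → ∀ χ : DirichletCharacter ℂ q, ∀ (D K h : ℕ) (a : ℕ → ℂ), 1 ≤ D →
  (D : ℝ) ≤ (N : ℝ) ^ (1 / 5 : ℝ) → N ^ 3 ≤ 64 * (D * K) → D * K ≤ 64 * N ^ 3 → h ≤ 1 →
  (∀ d, ‖a d‖ ≤ Real.log N ^ 2) →
  ∫ t in Tset ε B₁ N, ‖DPb D a t‖ ^ 2 * ‖DPb K (fun k => χ k * (Real.log k : ℂ) ^ h) t‖ ^ 2 ≤
    (N : ℝ) ^ 6 / Real.log N ^ A

/-- **VAU** (medium).  Vaughan's identity `Pool.Agent.helper85.BVP.vaughan U U` and dyadic blocks `[2^i, 2^(i+1))`.  The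
terms `n ≤ U` and all pairs outside the blocks of `PP N` or with product `> 64N³` have `‖g‖ ≤ N^(-10)`; all coefficients
are at most `N^3` in absolute value up to logarithms (crude: `|Λ| ≤ log`, `|beta U k| ≤ τ(k) ≤ k`, `|eU U d| ≤ log d`).
A pair `(m,k)`, `2^i ≤ m`, `2^l ≤ k`, `mk ≤ 64N³`, not in `PP N`: `mk < 4·2^(i+l) < N³/16`. -/
def VAU_stmt : Prop := ∃ N₀ : ℕ, ∀ N : ℕ, N₀ ≤ N → ∀ (U q : ℕ) (χ : DirichletCharacter ℂ q) (g : ℕ → ℂ),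
  1 ≤ U → U ^ 3 ≤ N → (∀ j, ‖g j‖ ≤ 2) →
  (∀ j : ℕ, 1 ≤ j → (2 * j ≤ N ^ 3 ∨ 16 * N ^ 3 ≤ j) → ‖g j‖ ≤ 1 / (N : ℝ) ^ 10) →
  ‖∑ j ∈ Ioc 0 (64 * N ^ 3), (vonMangoldt j : ℂ) * χ j * g j‖ ≤ 1 + ∑ w ∈ PP N,
    (‖BLb (2 ^ w.1) (2 ^ w.2) (fun d => if d ≤ U then ((moebius d : ℤ) : ℂ) * χ d else 0)
        (fun k => χ k * (Real.log k : ℂ) ^ 1) g‖ +
      ‖BLb (2 ^ w.1) (2 ^ w.2) (fun d => ((eU U d : ℝ) : ℂ) * χ d) (fun k => χ k * (Real.log k : ℂ) ^ 0) g‖ +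
      ‖BLb (2 ^ w.1) (2 ^ w.2) (fun m => if U < m then (vonMangoldt m : ℂ) * χ m else 0)
        (fun k => ((beta U k : ℝ) : ℂ) * χ k) g‖)

/-- **HW** (medium).  From VAU, HPB, TI, TII, CCB; `U = ⌈N^ε⌉₊`, `g = gW N c (de ε N) (dB B₂ N)`: CCB gives the decay
(`de ε N, dB B₂ N ≤ 1/log N`).  `#PP N ≤ C log² N`; a block of type I is zero unless `2^i ≤ U²`, a block of type II is zero
unless `U ≤ 2·2^i`, `U ≤ 2·2^l` (`beta U k = 0` for `1 ≤ k ≤ U`).  `B₁` = maximum of the two (the set `Tset` decreases with `B₁`).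
The last sum: blocks `D = 1`, `q = 1`, `a = 1`. -/
def HW_stmt : Prop := ∀ (ε : ℝ) (A B : ℕ), 0 < ε → ε ≤ 1 / 20 → ∃ B₀ : ℕ, ∀ B₂ : ℕ, B₀ ≤ B₂ → ∃ N₀ : ℕ,
  ∀ N : ℕ, N₀ ≤ N → ∀ c : ℕ → ℝ, (∀ n, |c n| ≤ 1) →
  (∀ q : ℕ, 1 ≤ q → (q : ℝ) ≤ Real.log N ^ B → ∀ χ : DirichletCharacter ℂ q,
    ‖∑ j ∈ Ioc 0 (64 * N ^ 3), (vonMangoldt j : ℂ) * χ j * gW N c (de ε N) (dB B₂ N) j‖ ≤
      (N : ℝ) ^ 3 / Real.log N ^ A) ∧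
  ‖∑ j ∈ Ioc 0 (64 * N ^ 3), gW N c (de ε N) (dB B₂ N) j‖ ≤ (N : ℝ) ^ 3 / Real.log N ^ A

/-- **PS** (short, medium).  `psi_char`, `psi_pnt` (helper74/TG/SW.lean, SW8, SW10; statements in helper74/TG/Spec.lean);
for `u ≤ N³/(log N)^(A+1)` trivially (Chebyshev); principal character mod `q`: the prime powers of `p ∣ q` contribute
`≤ C log² N`.  For `q = 1` the character is `1`. -/
def PS_stmt : Prop := ∀ A B : ℕ, ∃ N₀ : ℕ, ∀ N : ℕ, N₀ ≤ N → ∀ q : ℕ, 1 ≤ q →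
  (q : ℝ) ≤ Real.log N ^ B → ∀ χ : DirichletCharacter ℂ q, ∀ u ≤ 64 * N ^ 3,
  (χ ≠ 1 → ‖∑ j ∈ Ioc 0 u, (vonMangoldt j : ℂ) * χ j‖ ≤ (N : ℝ) ^ 3 / Real.log N ^ A) ∧
  (χ = 1 → ‖∑ j ∈ Ioc 0 u, ((vonMangoldt j : ℂ) * χ j - 1)‖ ≤ (N : ℝ) ^ 3 / Real.log N ^ A)

/-- **WN** (medium).  From HW, BD, LPS, PS: `cc = (cc - Ph (de)) + gW + Ph (dB)`; `ε = 1/20`; `B₂` from HW with `A + 1`; PS with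
exponent `A + B₂ + 2`; BD with `F₀ = 2 log(64N³)` (replace `f j` by `0` for `j > 64N³`). -/
def WN_stmt : Prop := ∀ A B : ℕ, ∃ N₀ : ℕ, ∀ N : ℕ, N₀ ≤ N → ∀ q : ℕ, 1 ≤ q →
  (q : ℝ) ≤ Real.log N ^ B → ∀ χ : DirichletCharacter ℂ q, ∀ c : ℕ → ℝ, (∀ n, |c n| ≤ 1) →
  (χ ≠ 1 → ‖∑ j ∈ Ioc 0 (64 * N ^ 3), (vonMangoldt j : ℂ) * χ j * (cc N c j : ℂ)‖ ≤
    (N : ℝ) ^ 3 / Real.log N ^ A) ∧
  (χ = 1 → ‖∑ j ∈ Ioc 0 (64 * N ^ 3), ((vonMangoldt j : ℂ) * χ j - 1) * (cc N c j : ℂ)‖ ≤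
    (N : ℝ) ^ 3 / Real.log N ^ A)

/-- **SC** (medium).  From WN; compare `BV4` of project GD (statement in helper8/GD/Spec.lean).  Every character mod `M` of
conductor `r ≤ R` is induced by a primitive `χ'` mod `r` (`r ≤ (log N)^B`), the difference of the sums is
`≤ ∑_{j ≤ 64N³, (j,M) > 1} Λ(j) ≤ C log² N`; at most `R²` characters. -/
def SC_stmt : Prop := ∀ A B : ℕ, ∃ N₀ : ℕ, ∀ N : ℕ, N₀ ≤ N → ∀ c : ℕ → ℝ, (∀ n, |c n| ≤ 1) →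
  ∀ M a R : ℕ, 0 < M → M ≤ 64 * N ^ 3 → Nat.Coprime a M → 1 ≤ R → (R : ℝ) ≤ Real.log N ^ B →
  |∑ j ∈ Ioc 0 (64 * N ^ 3), vonMangoldt j * cc N c j * ks R M a j -
      (1 / (Nat.totient M : ℝ)) * ∑ j ∈ Ioc 0 (64 * N ^ 3), cc N c j| ≤
    (1 / (Nat.totient M : ℝ)) * ((N : ℝ) ^ 3 / Real.log N ^ A)

/-- **BVL** (large conductors; part B, project of helper85; not a row). -/
def BVL_stmt : Prop := ∀ (ε : ℝ) (A : ℕ), 0 < ε → ε < 1 → ∃ B N₀ : ℕ, ∀ N : ℕ, N₀ ≤ N →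
  ∀ c : ℕ → ℝ, (∀ n, |c n| ≤ 1) → ∀ r : ℕ → ℕ, ClP r → ∀ R : ℕ, Real.log N ^ B ≤ R →
  ∑ m ∈ Mo ((N : ℝ) ^ (1 - ε)), |∑ j ∈ Ioc 0 (64 * N ^ 3),
    vonMangoldt j * cc N c j * kp R (30 * m) (r m) j| ≤ (N : ℝ) ^ 3 / Real.log N ^ A

/-- **BVW** (medium).  From BVL, SC; compare `BV` of project GD.  Choose `c n` = sign of the inner sum.  For `(r m, 30m) = 1`
(from `ClP`): `1[j ≡ r m mod 30m] = ks R₀ + ∑_i kp (2^i R₀)` for `(j, 30m) = 1`, `R₀ = ⌈(log N)^B⌉₊`; the `j` not prime to `30m`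
vanish on both sides (`χ j = 0`).  `∑_j cc N c j = ∑_n c n · #(Win n)`.  `∑_{m ≤ N} 1/φ(30m) ≤ C log² N`. -/
def BVW_stmt : Prop := ∀ (ε : ℝ) (A : ℕ), 0 < ε → ε < 1 → ∃ N₀ : ℕ, ∀ N : ℕ, N₀ ≤ N →
  ∀ r : ℕ → ℕ, ClP r → ∀ l : ℕ → ℝ, (∀ m, |l m| ≤ 1) →
  ∑ n ∈ Ico N (2 * N), |∑ m ∈ Mo ((N : ℝ) ^ (1 - ε)), l m *
    (∑ j ∈ Win n with j ≡ r m [MOD 30 * m], vonMangoldt j - (#(Win n) : ℝ) / (Nat.totient (30 * m) : ℝ))| ≤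
    (N : ℝ) ^ 3 / Real.log N ^ A

end Pool.Agent.CH
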